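import Pool.Agent.H95.VG.Targets3

/-!
# VG: smooth functions and integration by parts (module WGS)
-/

open MeasureTheory Set Filter Topology
open scoped ENNReal NNReal ContDiff Manifold

namespace Pool.Agent.H67.VG

open Pool.Agent.H95.VG

variable {n : ℕ}

/-- smooth cutoff function, one near a compact set and supported in an open set -/
theorem cutoff {K U : Set (V n)} (hK : IsCompact K) (hU : IsOpen U) (hKU : K ⊆ U) :
    ∃ p : V n → ℝ, ContDiff ℝ ∞ p ∧ HasCompactSupport p ∧ tsupport p ⊆ U ∧
      (∃ W, IsOpen W ∧ K ⊆ W ∧ ∀ x ∈ W, p x = 1) ∧ ∀ x, 0 ≤ p x ∧ p x ≤ 1 := by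
  obtain ⟨C, hC, hKC, hCO⟩ := exists_compact_between hK hU hKU
  obtain ⟨χ, h1, h0, h01⟩ := exists_contMDiffMap_one_nhds_of_subset_interior (n := (⊤ : ℕ∞))
    𝓘(ℝ, V n) hK.isClosed hKC
  have hts : tsupport (χ : V n → ℝ) ⊆ C := by
    apply closure_minimal _ hC.isClosed
    intro x hx
    by_contra hxC
    exact hx (h0 x hxC)
  refine ⟨χ, χ.contMDiff.contDiff, hC.of_isClosed_subset (isClosed_tsupport _) hts,
    hts.trans hCO, ?_, fun x => ⟨(h01 x).1, (h01 x).2⟩⟩
  obtain ⟨W, hW, hKW, hW1⟩ := eventually_nhdsSet_iff_exists.1 h1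
  exact ⟨W, hW, hKW, hW1⟩

/-- product of a cutoff function and a function smooth on an open set -/
theorem contDiff_cutoff_mul {U : Set (V n)} {p g : V n → ℝ} (hU : IsOpen U) (hp : ContDiff ℝ ∞ p)
    (hs : tsupport p ⊆ U) (hg : ContDiffOn ℝ ∞ g U) : ContDiff ℝ ∞ (fun x => p x * g x) := by
  rw [contDiff_iff_contDiffAt]
  intro x
  by_cases hx : x ∈ U
  · exact hp.contDiffAt.mul (hg.contDiffAt (hU.mem_nhds hx))
  · have hxt : x ∉ tsupport p := fun h => hx (hs h)
    have h1 : (fun x => p x * g x) =ᶠ[𝓝 x] fun _ => 0 := by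
      filter_upwards [(isClosed_tsupport p).isOpen_compl.mem_nhds hxt] with y hy
      rw [image_eq_zero_of_notMem_tsupport hy, zero_mul]
    exact contDiffAt_const.congr_of_eventuallyEq h1

/-- a function smooth on an open set agrees near a compact subset with a smooth function of
compact support -/
theorem exists_ext {U K : Set (V n)} {g : V n → ℝ} (hU : IsOpen U) (hK : IsCompact K)
    (hKU : K ⊆ U) (hg : ContDiffOn ℝ ∞ g U) : ∃ G : V n → ℝ, ContDiff ℝ ∞ G ∧
      HasCompactSupport G ∧ ∃ W, IsOpen W ∧ K ⊆ W ∧ ∀ x ∈ W, G x = g x := by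
  obtain ⟨p, hp, hpc, hps, ⟨W, hW, hKW, hW1⟩, -⟩ := cutoff hK hU hKU
  refine ⟨fun x => p x * g x, contDiff_cutoff_mul hU hp hps hg, hpc.mul_right, W, hW, hKW, ?_⟩
  intro x hx
  simp only
  rw [hW1 x hx, one_mul]

theorem fderiv_tsupport {p : V n → ℝ} {x : V n} (hx : x ∉ tsupport p) : fderiv ℝ p x = 0 :=
  image_eq_zero_of_notMem_tsupport (fun h => hx (tsupport_fderiv_subset ℝ h))

/-- integration by parts against a smooth function of compact support -/
theorem ibp {p G : V n → ℝ} (hp : ContDiff ℝ ∞ p) (hpc : HasCompactSupport p)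
    (hG : ContDiff ℝ ∞ G) (v : V n) :
    ∫ z, p z * fderiv ℝ G z v = - ∫ z, fderiv ℝ p z v * G z := by
  have hp1 : Continuous fun z => fderiv ℝ p z v :=
    (hp.continuous_fderiv (by simp)).clm_apply continuous_const
  have hG1 : Continuous fun z => fderiv ℝ G z v :=
    (hG.continuous_fderiv (by simp)).clm_apply continuous_const
  have hpc1 : HasCompactSupport fun z => fderiv ℝ p z v := by
    apply hpc.of_isClosed_subset (isClosed_tsupport _)
    apply closure_minimal _ (isClosed_tsupport _)
    intro z hz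
    by_contra h
    apply hz
    simp only
    rw [fderiv_tsupport h]
    rfl
  apply integral_mul_fderiv_eq_neg_fderiv_mul_of_integrable
  · exact (hp1.mul hG.continuous).integrable_of_hasCompactSupport hpc1.mul_right
  · exact (hp.continuous.mul hG1).integrable_of_hasCompactSupport hpc.mul_right
  · exact (hp.continuous.mul hG.continuous).integrable_of_hasCompactSupport hpc.mul_right
  · intro x _
    exact (hp.differentiable (by simp)).differentiableAt
  · intro x _
    exact (hG.differentiable (by simp)).differentiableAt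

theorem setIntegral_eq_univ {U : Set (V n)} {p F : V n → ℝ} (hs : tsupport p ⊆ U)
    (h : ∀ z ∉ tsupport p, F z = 0) : ∫ z in U, F z = ∫ z, F z :=
  setIntegral_eq_integral_of_forall_compl_eq_zero fun z hz => h z fun h' => hz (hs h')

theorem wcl_smooth {U : Set (V n)} {g : V n → ℝ} (hU : IsOpen U) (hg : ContDiffOn ℝ ∞ g U) :
    WCl U (fderiv ℝ g) := by
  intro p hp hpc hps v v'
  obtain ⟨G, hG, hGc, W, hW, hKW, hW1⟩ := exists_ext hU hpc hps hg
  have h1 : ∀ z ∈ tsupport p, fderiv ℝ g z = fderiv ℝ G z := by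
    intro z hz
    apply Filter.EventuallyEq.fderiv_eq
    filter_upwards [hW.mem_nhds (hKW hz)] with y hy
    exact (hW1 y hy).symm
  have h2 : ∀ z, fderiv ℝ g z v * fderiv ℝ p z v' - fderiv ℝ g z v' * fderiv ℝ p z v
      = fderiv ℝ G z v * fderiv ℝ p z v' - fderiv ℝ G z v' * fderiv ℝ p z v := by
    intro z
    by_cases hz : z ∈ tsupport p
    · rw [h1 z hz]
    · rw [fderiv_tsupport hz]
      simp
  simp only [h2]
  rw [setIntegral_eq_univ (p := p) hps (fun z hz => by rw [fderiv_tsupport hz]; simp)]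
  have hpv : ∀ w : V n, ContDiff ℝ ∞ fun z => fderiv ℝ p z w := fun w =>
    (hp.fderiv_right (m := ∞) (by simp)).clm_apply contDiff_const
  have hpcv : ∀ w : V n, HasCompactSupport fun z => fderiv ℝ p z w := by
    intro w
    apply hpc.of_isClosed_subset (isClosed_tsupport _)
    apply closure_minimal _ (isClosed_tsupport _)
    intro z hz
    by_contra h
    apply hz
    simp only
    rw [fderiv_tsupport h]
    rfl
  have hGv : ∀ w : V n, Continuous fun z => fderiv ℝ G z w := fun w =>
    (hG.continuous_fderiv (by simp)).clm_apply continuous_const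
  have e : ∀ w w' : V n, ∫ z, fderiv ℝ G z w * fderiv ℝ p z w'
      = - ∫ z, fderiv ℝ (fun x => fderiv ℝ p x w') z w * G z := by
    intro w w'
    rw [← ibp (hpv w') (hpcv w') hG w]
    congr 1
    ext z
    ring
  have hi : ∀ w w' : V n, Integrable fun z => fderiv ℝ G z w * fderiv ℝ p z w' := fun w w' =>
    ((hGv w).mul (hpv w').continuous).integrable_of_hasCompactSupport (hpcv w').mul_left
  rw [integral_sub (hi v v') (hi v' v), e v v', e v' v]
  have hsym : ∀ z, fderiv ℝ (fun x => fderiv ℝ p x v') z v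
      = fderiv ℝ (fun x => fderiv ℝ p x v) z v' := by
    intro z
    have hd : DifferentiableAt ℝ (fderiv ℝ p) z :=
      ((hp.fderiv_right (m := ∞) (by simp)).differentiable (by simp)).differentiableAt
    have ha : ∀ w : V n, fderiv ℝ (fun x => fderiv ℝ p x w) z = (fderiv ℝ (fderiv ℝ p) z).flip w := by
      intro w
      have := (hd.hasFDerivAt.clm_apply (hasFDerivAt_const w z)).fderiv
      rw [this]
      ext y
      simp
    rw [ha, ha]
    simp only [ContinuousLinearMap.flip_apply]
    have hs : IsSymmSndFDerivAt ℝ p z :=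
      hp.contDiffAt.isSymmSndFDerivAt (by
        simp only [minSmoothness_of_isRCLikeNormedField]
        exact WithTop.coe_le_coe.2 (le_top : (2 : ℕ∞) ≤ ⊤))
    exact hs v v'
  simp only [hsym]
  ring

theorem wgr_smooth {U : Set (V n)} {g : V n → ℝ} (hU : IsOpen U) (hg : ContDiffOn ℝ ∞ g U) :
    WGr U g (fderiv ℝ g) := by
  intro K hKU hK
  obtain ⟨G, hG, hGc, W, hW, hKW, hW1⟩ := exists_ext hU hK hKU hg
  have h1 : ∀ z ∈ K, fderiv ℝ G z = fderiv ℝ g z := by
    intro z hz
    apply Filter.EventuallyEq.fderiv_eq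
    filter_upwards [hW.mem_nhds (hKW hz)] with y hy
    exact hW1 y hy
  refine ⟨fun _ => G, fun _ => hG, ?_, ?_⟩
  · have : ∫⁻ z in K, ENNReal.ofReal |G z - g z| = 0 := by
      rw [setLIntegral_congr_fun hK.measurableSet (g := fun _ => 0)
        (fun z hz => by simp [hW1 z (hKW hz)])]
      simp
    simp only [this]
    exact tendsto_const_nhds
  · have : ∫⁻ z in K, ENNReal.ofReal ‖fderiv ℝ G z - fderiv ℝ g z‖ = 0 := by
      rw [setLIntegral_congr_fun hK.measurableSet (g := fun _ => 0)
        (fun z hz => by simp [h1 z hz])]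
      simp
    simp only [this]
    exact tendsto_const_nhds

theorem wgr_ibp {U : Set (V n)} {F : V n → ℝ} {β : V n → V n →L[ℝ] ℝ} {p : V n → ℝ} {v : V n}
    (hW : WGr U F β) (hF : LocallyIntegrableOn F U) (hβ : LocallyIntegrableOn β U)
    (hp : ContDiff ℝ ∞ p) (hpc : HasCompactSupport p) (hps : tsupport p ⊆ U) :
    ∫ z in U, p z * β z v = - ∫ z in U, F z * fderiv ℝ p z v := by
  set K := tsupport p with hK
  have hKc : IsCompact K := hpc
  obtain ⟨G, hG, hG0, hG1⟩ := hW K hps hKc
  have hFK : IntegrableOn F K := hF.integrableOn_compact_subset hps hKc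
  have hβK : IntegrableOn β K := hβ.integrableOn_compact_subset hps hKc
  obtain ⟨C, hC⟩ := hp.continuous.bounded_above_of_compact_support hpc
  have hp1c : Continuous (fderiv ℝ p) := hp.continuous_fderiv (by simp)
  obtain ⟨D, hD⟩ := hp1c.bounded_above_of_compact_support (hpc.fderiv ℝ)
  have eK : ∀ H : V n → ℝ, (∀ z ∉ K, H z = 0) → ∫ z in U, H z = ∫ z in K, H z := by
    intro H hH
    rw [setIntegral_eq_integral_of_forall_compl_eq_zero (s := U)
      (fun z hz => hH z fun h' => hz (hps h')),
      setIntegral_eq_integral_of_forall_compl_eq_zero (s := K) (fun z hz => hH z hz)]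
  have eK' : ∀ H : V n → ℝ, (∀ z ∉ K, H z = 0) → ∫ z, H z = ∫ z in K, H z := by
    intro H hH
    rw [setIntegral_eq_integral_of_forall_compl_eq_zero (s := K) (fun z hz => hH z hz)]
  have hp0 : ∀ z ∉ K, p z = 0 := fun z hz => image_eq_zero_of_notMem_tsupport hz
  have hp10 : ∀ z ∉ K, fderiv ℝ p z = 0 := fun z hz => fderiv_tsupport hz
  rw [eK _ (fun z hz => by rw [hp0 z hz, zero_mul]),
    eK _ (fun z hz => by rw [hp10 z hz]; simp)]
  have hGc1 : ∀ j, Continuous (fderiv ℝ (G j)) := fun j => (hG j).continuous_fderiv (by simp)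
  have hj : ∀ j, ∫ z in K, p z * fderiv ℝ (G j) z v = - ∫ z in K, G j z * fderiv ℝ p z v := by
    intro j
    rw [← eK' _ (fun z hz => by rw [hp0 z hz, zero_mul]),
      ← eK' _ (fun z hz => by rw [hp10 z hz]; simp), ibp hp hpc (hG j) v]
    congr 2
    ext z
    ring
  have l1 : Tendsto (fun j => ∫ z in K, p z * fderiv ℝ (G j) z v) atTop
      (𝓝 (∫ z in K, p z * β z v)) := by
    apply tendsto_integral_of_L1
    · exact hp.continuous.aestronglyMeasurable.mul
        (hβK.apply_continuousLinearMap v).aestronglyMeasurable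
    · apply Eventually.of_forall
      intro j
      apply ContinuousOn.integrableOn_compact hKc
      exact (hp.continuous.mul ((hGc1 j).clm_apply continuous_const)).continuousOn
    · have hle : ∀ j, ∫⁻ z in K, ‖p z * fderiv ℝ (G j) z v - p z * β z v‖ₑ
          ≤ ENNReal.ofReal (C * ‖v‖) * ∫⁻ z in K, ENNReal.ofReal ‖fderiv ℝ (G j) z - β z‖ := by
        intro j
        rw [← lintegral_const_mul' _ _ ENNReal.ofReal_ne_top]
        apply lintegral_mono
        intro z
        simp only
        rw [← ofReal_norm, ← ENNReal.ofReal_mul']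
        · apply ENNReal.ofReal_le_ofReal
          rw [← mul_sub, norm_mul, ← _root_.sub_apply]
          have hC0 : 0 ≤ C := le_trans (norm_nonneg _) (hC z)
          calc ‖p z‖ * ‖(fderiv ℝ (G j) z - β z) v‖
              ≤ C * (‖fderiv ℝ (G j) z - β z‖ * ‖v‖) := by
                apply mul_le_mul (hC z) (ContinuousLinearMap.le_opNorm _ _) (norm_nonneg _) hC0
            _ = C * ‖v‖ * ‖fderiv ℝ (G j) z - β z‖ := by ring
        · exact norm_nonneg _
      apply tendsto_of_tendsto_of_tendsto_of_le_of_le tendsto_const_nhds _ (fun j => bot_le) hle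
      have := ENNReal.Tendsto.const_mul (a := ENNReal.ofReal (C * ‖v‖)) hG1
        (Or.inr ENNReal.ofReal_ne_top)
      rwa [mul_zero] at this
  have l2 : Tendsto (fun j => ∫ z in K, G j z * fderiv ℝ p z v) atTop
      (𝓝 (∫ z in K, F z * fderiv ℝ p z v)) := by
    apply tendsto_integral_of_L1
    · exact hFK.aestronglyMeasurable.mul (hp1c.clm_apply continuous_const).aestronglyMeasurable
    · apply Eventually.of_forall
      intro j
      apply ContinuousOn.integrableOn_compact hKc
      exact ((hG j).continuous.mul (hp1c.clm_apply continuous_const)).continuousOn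
    · have hle : ∀ j, ∫⁻ z in K, ‖G j z * fderiv ℝ p z v - F z * fderiv ℝ p z v‖ₑ
          ≤ ENNReal.ofReal (D * ‖v‖) * ∫⁻ z in K, ENNReal.ofReal |G j z - F z| := by
        intro j
        rw [← lintegral_const_mul' _ _ ENNReal.ofReal_ne_top]
        apply lintegral_mono
        intro z
        simp only
        rw [← ofReal_norm, ← ENNReal.ofReal_mul']
        · apply ENNReal.ofReal_le_ofReal
          rw [← sub_mul, norm_mul, mul_comm, Real.norm_eq_abs (G j z - F z)]
          apply mul_le_mul_of_nonneg_right _ (abs_nonneg _)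
          exact (ContinuousLinearMap.le_opNorm _ _).trans
            (mul_le_mul_of_nonneg_right (hD z) (norm_nonneg _))
        · exact abs_nonneg _
      apply tendsto_of_tendsto_of_tendsto_of_le_of_le tendsto_const_nhds _ (fun j => bot_le) hle
      have := ENNReal.Tendsto.const_mul (a := ENNReal.ofReal (D * ‖v‖)) hG0
        (Or.inr ENNReal.ofReal_ne_top)
      rwa [mul_zero] at this
  exact tendsto_nhds_unique l1 (l2.neg.congr fun j => (hj j).symm)

theorem wgs : T_WGS := by
  intro n U g hU hg
  exact ⟨wgr_smooth hU hg, wcl_smooth hU hg,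
    fun F β p v hW hF hβ hp hpc hps => wgr_ibp hW hF hβ hp hpc hps⟩

end Pool.Agent.H67.VG
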