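import Pool.Agent.H67.VG.WG0
import Pool.Agent.H95.VG.Targets1

/-!
# VG: composition with biholomorphic maps (module WGC)
-/

open MeasureTheory Set Filter Topology
open scoped ENNReal NNReal ContDiff Manifold

namespace Pool.Agent.H67.VG

open Pool.Agent.H95.VG

variable {n : ℕ}

theorem jac_eq_toMatrix' (Y : V n → V n) (z : V n) :
    jac Y z = LinearMap.toMatrix' (fderiv ℂ Y z : V n →ₗ[ℂ] V n) := by
  ext i j
  simp [jac, ek, LinearMap.toMatrix'_apply]

theorem fderiv_real_eq {Y : V n → V n} {z : V n} (h : DifferentiableAt ℂ Y z) :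
    fderiv ℝ Y z = (fderiv ℂ Y z).restrictScalars ℝ :=
  (h.hasFDerivAt.restrictScalars ℝ).fderiv

theorem det_real_eq {Y : V n → V n} {z : V n} (h : DifferentiableAt ℂ Y z) :
    (fderiv ℝ Y z).det = ‖(jac Y z).det‖ ^ 2 := by
  rw [fderiv_real_eq h, jac_eq_toMatrix', LinearMap.det_toMatrix', ContinuousLinearMap.det]
  have : ((ContinuousLinearMap.restrictScalars ℝ (fderiv ℂ Y z) : V n →L[ℝ] V n) :
      V n →ₗ[ℝ] V n) = LinearMap.restrictScalars ℝ (fderiv ℂ Y z : V n →ₗ[ℂ] V n) := rfl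
  rw [this, LinearMap.det_restrictScalars, Algebra.norm_complex_apply, Complex.normSq_eq_norm_sq]

theorem wgc (hSMO : T_SMO) : T_WGC := by
  intro n U U' τ F β hU hU' hτ hmaps hinj hdet hG K hKU hK
  have hτs : ContDiffOn ℝ ∞ τ U := (hSMO n (V n) U τ hU hτ).2.1
  have hτc : ContinuousOn τ U := hτs.continuousOn
  have hK' : IsCompact (τ '' K) := hK.image_of_continuousOn (hτc.mono hKU)
  have hKU' : τ '' K ⊆ U' := by
    rintro _ ⟨z, hz, rfl⟩
    exact hmaps (hKU hz)
  obtain ⟨G, hGs, hG0, hG1⟩ := hG (τ '' K) hKU' hK'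
  obtain ⟨p, hp, hpc, hps, ⟨W, hW, hKW, hW1⟩, -⟩ := cutoff hK hU hKU
  have hdiff : ∀ z ∈ U, DifferentiableAt ℂ τ z := fun z hz => hτ.differentiableAt (hU.mem_nhds hz)
  have hdiffR : ∀ z ∈ U, DifferentiableAt ℝ τ z := fun z hz =>
    (hτs.contDiffAt (hU.mem_nhds hz)).differentiableAt (by simp)
  have hfc : ContinuousOn (fderiv ℝ τ) U := hτs.continuousOn_fderiv_of_isOpen hU (by simp)
  have hdc : ContinuousOn (fun z => (fderiv ℝ τ z).det) U :=
    ContinuousLinearMap.continuous_det.comp_continuousOn hfc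
  have hdpos : ∀ z ∈ U, 0 < (fderiv ℝ τ z).det := by
    intro z hz
    rw [det_real_eq (hdiff z hz)]
    have := norm_pos_iff.2 (hdet z hz)
    positivity
  -- lower bound for the determinant
  obtain ⟨c, hc0, hc⟩ : ∃ c : ℝ, 0 < c ∧ ∀ z ∈ K, c ≤ (fderiv ℝ τ z).det := by
    rcases K.eq_empty_or_nonempty with h | h
    · exact ⟨1, one_pos, by simp [h]⟩
    · obtain ⟨z, hz, hmin⟩ := hK.exists_isMinOn h (hdc.mono hKU)
      exact ⟨_, hdpos z (hKU hz), fun y hy => hmin hy⟩
  obtain ⟨M, hM⟩ := hK.exists_bound_of_continuousOn (hfc.mono hKU)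
  have cov : ∀ g : V n → ℝ≥0∞, ∫⁻ z in K, g (τ z) ≤
      ENNReal.ofReal c⁻¹ * ∫⁻ y in τ '' K, g y := by
    intro g
    rw [lintegral_image_eq_lintegral_abs_det_fderiv_mul volume hK.measurableSet
      (fun z hz => (hdiffR z (hKU hz)).hasFDerivAt.hasFDerivWithinAt) (hinj.mono hKU) g,
      ← lintegral_const_mul' _ _ ENNReal.ofReal_ne_top]
    apply setLIntegral_mono' hK.measurableSet
    intro z hz
    rw [← mul_assoc, ← ENNReal.ofReal_mul (by positivity)]
    have h1 : 1 ≤ c⁻¹ * |(fderiv ℝ τ z).det| := by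
      rw [abs_of_pos (hdpos z (hKU hz)), inv_mul_eq_div, one_le_div hc0]
      exact hc z hz
    calc g (τ z) = 1 * g (τ z) := (one_mul _).symm
      _ ≤ ENNReal.ofReal (c⁻¹ * |(fderiv ℝ τ z).det|) * g (τ z) := by
        gcongr
        exact ENNReal.one_le_ofReal.2 h1
  refine ⟨fun j z => p z * G j (τ z), ?_, ?_, ?_⟩
  · intro j
    exact contDiff_cutoff_mul hU hp hps ((hGs j).comp_contDiffOn hτs)
  · have hle : ∀ j, ∫⁻ z in K, ENNReal.ofReal |p z * G j (τ z) - F (τ z)| ≤
        ENNReal.ofReal c⁻¹ * ∫⁻ y in τ '' K, ENNReal.ofReal |G j y - F y| := by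
      intro j
      refine le_trans (le_of_eq ?_) (cov fun y => ENNReal.ofReal |G j y - F y|)
      apply setLIntegral_congr_fun hK.measurableSet
      intro z hz
      simp only
      rw [hW1 z (hKW hz), one_mul]
    apply tendsto_of_tendsto_of_tendsto_of_le_of_le tendsto_const_nhds _ (fun j => bot_le) hle
    have := ENNReal.Tendsto.const_mul (a := ENNReal.ofReal c⁻¹) hG0
      (Or.inr ENNReal.ofReal_ne_top)
    rwa [mul_zero] at this
  · have hle : ∀ j, ∫⁻ z in K, ENNReal.ofReal ‖fderiv ℝ (fun z => p z * G j (τ z)) z -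
        (β (τ z)).comp (fderiv ℝ τ z)‖ ≤
        ENNReal.ofReal M * (ENNReal.ofReal c⁻¹ *
          ∫⁻ y in τ '' K, ENNReal.ofReal ‖fderiv ℝ (G j) y - β y‖) := by
      intro j
      refine le_trans ?_ (mul_le_mul_right (cov fun y => ENNReal.ofReal ‖fderiv ℝ (G j) y - β y‖) _)
      rw [← lintegral_const_mul' _ _ ENNReal.ofReal_ne_top]
      apply setLIntegral_mono' hK.measurableSet
      intro z hz
      have e1 : fderiv ℝ (fun z => p z * G j (τ z)) z = fderiv ℝ (fun z => G j (τ z)) z := by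
        apply Filter.EventuallyEq.fderiv_eq
        filter_upwards [hW.mem_nhds (hKW hz)] with y hy
        rw [hW1 y hy, one_mul]
      have e2 : fderiv ℝ (fun z => G j (τ z)) z = (fderiv ℝ (G j) (τ z)).comp (fderiv ℝ τ z) :=
        fderiv_comp z ((hGs j).differentiable (by simp) _) (hdiffR z (hKU hz))
      rw [e1, e2, ← ContinuousLinearMap.sub_comp, ← ENNReal.ofReal_mul' (norm_nonneg _)]
      apply ENNReal.ofReal_le_ofReal
      rw [mul_comm]
      exact (ContinuousLinearMap.opNorm_comp_le _ _).trans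
        (mul_le_mul_of_nonneg_left (hM z hz) (norm_nonneg _))
    apply tendsto_of_tendsto_of_tendsto_of_le_of_le tendsto_const_nhds _ (fun j => bot_le) hle
    have h1 := ENNReal.Tendsto.const_mul (a := ENNReal.ofReal c⁻¹) hG1
      (Or.inr ENNReal.ofReal_ne_top)
    rw [mul_zero] at h1
    have h2 := ENNReal.Tendsto.const_mul (a := ENNReal.ofReal M) h1
      (Or.inr ENNReal.ofReal_ne_top)
    rwa [mul_zero] at h2

end Pool.Agent.H67.VG
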