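import Pool.Agent.H67.VG.Pou
import Pool.Agent.H67.VG.WGC
import Pool.Agent.H95.VG.Targets1

/-!
# VG: the pull back of a closed form is weakly closed (module BTW)
-/

open MeasureTheory Set Filter Topology
open scoped ENNReal NNReal ContDiff Manifold

namespace Pool.Agent.H67.VG

open Pool.Agent.H95.VG

variable {n : ℕ}

theorem v_eq_sum (v : V n) : v = ∑ j, v j • ek j := by
  ext i
  simp [ek, Pi.single_apply, Finset.sum_apply]

theorem norm_fderiv_le {Y : V n → V n} {z : V n} {B : ℝ} (hB : ∀ i j, ‖jac Y z i j‖ ≤ B)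
    (hB0 : 0 ≤ B) : ‖fderiv ℂ Y z‖ ≤ n * B := by
  apply ContinuousLinearMap.opNorm_le_bound _ (by positivity)
  intro v
  rw [pi_norm_le_iff_of_nonneg (by positivity)]
  intro i
  have e : fderiv ℂ Y z v i = ∑ j, v j * jac Y z i j := by
    conv_lhs => rw [v_eq_sum v]
    rw [map_sum, Finset.sum_apply]
    apply Finset.sum_congr rfl
    intro j _
    rw [map_smul]
    rfl
  rw [e]
  calc ‖∑ j, v j * jac Y z i j‖ ≤ ∑ j, ‖v j * jac Y z i j‖ := norm_sum_le _ _
    _ ≤ ∑ _j : Fin n, ‖v‖ * B := by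
        apply Finset.sum_le_sum
        intro j _
        rw [norm_mul]
        exact mul_le_mul (norm_le_pi_norm v j) (hB i j) (norm_nonneg _) (norm_nonneg _)
    _ = n * B * ‖v‖ := by
        rw [Finset.sum_const, Finset.card_univ, Fintype.card_fin, nsmul_eq_mul]
        ring

theorem normsq_fderiv_le (g : V n → ℝ) (z : V n) :
    ‖fderiv ℝ g z‖ ^ 2 ≤ 8 * n * ∑ k, ge g z (ek k) := by
  set D := fderiv ℝ g z with hD
  have h1 : ‖D‖ ≤ ∑ k : Fin n, (|D (ek k)| + |D (Complex.I • ek k)|) := by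
    apply ContinuousLinearMap.opNorm_le_bound _
      (Finset.sum_nonneg fun k _ => add_nonneg (abs_nonneg _) (abs_nonneg _))
    intro v
    have e : D v = ∑ k, ((v k).re * D (ek k) + (v k).im * D (Complex.I • ek k)) := by
      conv_lhs => rw [v_eq_sum v]
      rw [map_sum]
      apply Finset.sum_congr rfl
      intro k _
      have : v k • (ek k : V n) = (v k).re • ek k + (v k).im • (Complex.I • ek k) := by
        ext i
        simp only [Pi.smul_apply, Pi.add_apply, smul_eq_mul, Complex.real_smul]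
        conv_lhs => rw [← Complex.re_add_im (v k)]
        ring
      rw [this, map_add, map_smul, map_smul]
      rfl
    rw [e, Finset.sum_mul]
    refine (norm_sum_le _ _).trans (Finset.sum_le_sum fun k _ => ?_)
    rw [Real.norm_eq_abs]
    refine (abs_add_le _ _).trans ?_
    rw [abs_mul, abs_mul, add_mul, mul_comm |D (ek k)|, mul_comm |D (Complex.I • ek k)|]
    apply add_le_add
    · exact mul_le_mul_of_nonneg_right ((Complex.abs_re_le_norm _).trans (norm_le_pi_norm v k))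
        (abs_nonneg _)
    · exact mul_le_mul_of_nonneg_right ((Complex.abs_im_le_norm _).trans (norm_le_pi_norm v k))
        (abs_nonneg _)
  have h2 : ∀ k : Fin n, ge g z (ek k) = (D (ek k) ^ 2 + D (Complex.I • ek k) ^ 2) / 4 := by
    intro k
    rw [ge, dr, norm_div, div_pow, ← hD]
    have : ‖(((D (ek k) : ℝ) : ℂ) - Complex.I * ((D (Complex.I • ek k) : ℝ) : ℂ))‖ ^ 2
        = D (ek k) ^ 2 + D (Complex.I • ek k) ^ 2 := by
      rw [← Complex.normSq_eq_norm_sq, Complex.normSq_apply]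
      simp
      ring
    rw [this]
    norm_num
  have h3 : (∑ k : Fin n, (|D (ek k)| + |D (Complex.I • ek k)|)) ^ 2
      ≤ n * ∑ k : Fin n, (|D (ek k)| + |D (Complex.I • ek k)|) ^ 2 := by
    have := sq_sum_le_card_mul_sum_sq (s := (Finset.univ : Finset (Fin n)))
      (f := fun k => |D (ek k)| + |D (Complex.I • ek k)|)
    simpa using this
  calc ‖D‖ ^ 2 ≤ (∑ k : Fin n, (|D (ek k)| + |D (Complex.I • ek k)|)) ^ 2 :=
        pow_le_pow_left₀ (norm_nonneg _) h1 2
    _ ≤ n * ∑ k : Fin n, (|D (ek k)| + |D (Complex.I • ek k)|) ^ 2 := h3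
    _ ≤ n * ∑ k : Fin n, 8 * ge g z (ek k) := by
        apply mul_le_mul_of_nonneg_left _ (Nat.cast_nonneg n)
        apply Finset.sum_le_sum
        intro k _
        rw [h2 k, ← sq_abs (D (ek k)), ← sq_abs (D (Complex.I • ek k))]
        nlinarith [sq_nonneg (|D (ek k)| - |D (Complex.I • ek k)|)]
    _ = 8 * n * ∑ k, ge g z (ek k) := by
        rw [← Finset.mul_sum]
        ring

theorem cf_id (Y : V n → V n) (k : Fin n) (z : V n) :
    cf (mix (fun i => Sum.inl i) Y) k z = ek k := by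
  have h1 : mix (fun i : Fin n => (Sum.inl i : Fin n ⊕ Fin n)) Y = fun z => z := by
    ext z i
    simp [mix]
  have h2 : jac (fun z : V n => z) z = 1 := by
    ext i j
    simp [jac, ek, Matrix.one_apply, Pi.single_apply]
  ext i
  rw [cf, h1, h2, Matrix.adjugate_one]
  simp [ek, Matrix.one_apply, Pi.single_apply]

variable {X : Type} [TopologicalSpace X] {ι : Type}

theorem mem_Oa_ch (A : Atl n X ι) (f : V n → X) (I : Set (V n)) {z : V n} (hz : z ∈ Dp n \ I) :
    z ∈ Oa A f I (ch A (f z)) ∧ z ∈ Cb A f (ch A (f z)) 1 := by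
  have h := (A.cover (f z)).choose_spec
  exact ⟨⟨hz, h.1, Metric.ball_subset_ball (by norm_num) h.2⟩, h.1, Metric.ball_subset_closedBall h.2⟩

theorem bt_eq {A : Atl n X ι} {f : V n → X} {I : Set (V n)} {h : ι → V n → ℝ} (hS : Sing A f I)
    (hC : Clo A h) (a : ι) {z : V n} (hz : z ∈ Oa A f I a) :
    bt A f h z = fderiv ℝ (fun x => h a (FF A f a x)) z := by
  have h1 := (mem_Oa_ch A f I hz.1).1
  have h2 := hC.compat (ch A (f z)) a (f z) h1.2.1 hz.2.1 h1.2.2 hz.2.2
  have h3 : ContinuousAt f z := hS.cont.continuousAt (hS.opn.mem_nhds hz.1)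
  rw [bt]
  have h4 : (fun x => h (ch A (f z)) (A.φ (ch A (f z)) (f x))) =ᶠ[𝓝 z]
      fun x => h a (FF A f a x) + (h (ch A (f z)) (A.φ (ch A (f z)) (f z)) - h a (A.φ a (f z))) := by
    filter_upwards [h3.eventually h2] with x hx
    rw [FF]
    linarith
  rw [h4.fderiv_eq, fderiv_add_const]

theorem smooth_comp (hSMO : T_SMO) {A : Atl n X ι} {f : V n → X} {I : Set (V n)}
    {h : ι → V n → ℝ} (hC : Clo A h) (a : ι) (h1 : IsOpen (Oa A f I a))
    (h2 : DifferentiableOn ℂ (FF A f a) (Oa A f I a)) :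
    ContDiffOn ℝ ∞ (fun x => h a (FF A f a x)) (Oa A f I a) :=
  (hC.smooth a).comp (hSMO n (V n) _ _ h1 h2).2.1 fun _ hz => hz.2.2


theorem bt_cont (hSMO : T_SMO) (hOAO : T_OAO) [T2Space X] {A : Atl n X ι} {f : V n → X}
    {I : Set (V n)} {h : ι → V n → ℝ} (hS : Sing A f I) (hC : Clo A h) :
    ContinuousOn (bt A f h) (Dp n \ I) := by
  intro z hz
  set a := ch A (f z) with ha
  have hza := (mem_Oa_ch A f I hz).1
  obtain ⟨hO, hd, -⟩ := hOAO n X ι A f I hS a
  have h1 := smooth_comp hSMO hC a hO hd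
  have h2 : ContinuousAt (fderiv ℝ (fun x => h a (FF A f a x))) z :=
    (h1.continuousOn_fderiv_of_isOpen hO (by simp)).continuousAt (hO.mem_nhds hza)
  apply ContinuousAt.continuousWithinAt
  apply h2.congr
  filter_upwards [hO.mem_nhds hza] with x hx
  exact (bt_eq hS hC a hx).symm

theorem bt_bound (hOAO : T_OAO) (hDOM : T_DOM) [T2Space X] {A : Atl n X ι}
    {f : V n → X} {I : Set (V n)} {h : ι → V n → ℝ} (hS : Sing A f I) (hC : Clo A h) (a : ι) :
    ∃ C : ℝ, 0 ≤ C ∧ ∀ z ∈ (Dp n \ I) ∩ Cb A f a 1, ‖bt A f h z‖ ^ 2 ≤ C * Dm (FF A f a) z := by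
  have hcb : Metric.closedBall (0 : V n) 1 ⊆ Metric.ball 0 2 :=
    Metric.closedBall_subset_ball (by norm_num)
  have hcd : ContinuousOn (fderiv ℝ (h a)) (Metric.closedBall (0 : V n) 1) :=
    ((hC.smooth a).continuousOn_fderiv_of_isOpen Metric.isOpen_ball (by simp)).mono hcb
  obtain ⟨M, hM⟩ := (isCompact_closedBall (0 : V n) 1).exists_bound_of_continuousOn hcd
  refine ⟨(M * n) ^ 2, sq_nonneg _, ?_⟩
  rintro z ⟨hz, hzb⟩
  obtain ⟨hO, hd, -, h4, -⟩ := hOAO n X ι A f I hS a
  have hza : z ∈ Oa A f I a := h4 1 (by norm_num) ⟨hz, hzb⟩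
  have hdz : DifferentiableAt ℂ (FF A f a) z := hd.differentiableAt (hO.mem_nhds hza)
  have hhz : DifferentiableAt ℝ (h a) (FF A f a z) :=
    ((hC.smooth a).contDiffAt (Metric.isOpen_ball.mem_nhds hza.2.2)).differentiableAt (by simp)
  have hfz : DifferentiableAt ℝ (FF A f a) z := (hdz.hasFDerivAt.restrictScalars ℝ).differentiableAt
  have e : bt A f h z = (fderiv ℝ (h a) (FF A f a z)).comp (fderiv ℝ (FF A f a) z) := by
    rw [bt_eq hS hC a hza]
    exact fderiv_comp z hhz hfz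
  obtain ⟨hD1, -, hD, -⟩ := hDOM n (FF A f a) z hdz
  have hD0 : 0 ≤ Dm (FF A f a) z := by linarith
  have h5 : ‖fderiv ℝ (FF A f a) z‖ ≤ n * Real.sqrt (Dm (FF A f a) z) := by
    rw [fderiv_real_eq hdz, ContinuousLinearMap.norm_restrictScalars]
    apply norm_fderiv_le _ (Real.sqrt_nonneg _)
    intro i j
    rw [← Real.sqrt_sq (norm_nonneg _)]
    exact Real.sqrt_le_sqrt (hD i j)
  have hM0 : 0 ≤ M := (norm_nonneg _).trans (hM _ hzb.2)
  have h6 : ‖bt A f h z‖ ≤ M * (n * Real.sqrt (Dm (FF A f a) z)) := by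
    rw [e]
    refine (ContinuousLinearMap.opNorm_comp_le _ _).trans ?_
    exact mul_le_mul (hM _ hzb.2) h5 (norm_nonneg _) hM0
  calc ‖bt A f h z‖ ^ 2 ≤ (M * (n * Real.sqrt (Dm (FF A f a) z))) ^ 2 :=
        pow_le_pow_left₀ (norm_nonneg _) h6 2
    _ = (M * n) ^ 2 * Dm (FF A f a) z := by
        rw [mul_pow, mul_pow, mul_pow, Real.sq_sqrt hD0]
        ring

theorem restrict_eq {I K : Set (V n)} (h0 : volume (Dp n ∩ I) = 0) (hK : K ⊆ Dp n) :
    (volume : Measure (V n)).restrict K = volume.restrict (K \ I) := by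
  apply Measure.restrict_congr_set
  have h1 : volume (K ∩ I) = 0 := measure_mono_null (inter_subset_inter_left _ hK) h0
  have h2 := sdiff_null_ae_eq_self (s := K) h1
  rw [sdiff_self_inter] at h2
  exact h2.symm

variable [Fintype ι]

theorem bt_sq (hOAO : T_OAO) (hDOM : T_DOM) [T2Space X] {A : Atl n X ι}
    {f : V n → X} {I : Set (V n)} {h : ι → V n → ℝ} (hS : Sing A f I) (hC : Clo A h)
    {K : Set (V n)} (hKD : K ⊆ Dp n) (hK : IsCompact K) :
    ∫⁻ z in K, ENNReal.ofReal (‖bt A f h z‖ ^ 2) < ⊤ := by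
  rw [restrict_eq hS.null hKD]
  have hsub : K \ I ⊆ ⋃ a, (K \ I) ∩ Cb A f a 1 := by
    intro z hz
    exact mem_iUnion.2 ⟨ch A (f z), hz, (mem_Oa_ch A f I ⟨hKD hz.1, hz.2⟩).2⟩
  refine (lintegral_mono_set hsub).trans_lt ?_
  refine (lintegral_iUnion_le _ _).trans_lt ?_
  rw [tsum_fintype]
  apply ENNReal.sum_lt_top.2
  intro a _
  obtain ⟨C, hC0, hCb⟩ := bt_bound hOAO hDOM hS hC a
  have hm : MeasurableSet ((K \ I) ∩ Cb A f a 1) := by
    obtain ⟨-, -, h3, -⟩ := hOAO n X ι A f I hS a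
    obtain ⟨C', hC', e⟩ := h3 1 (by norm_num)
    have : (K \ I) ∩ Cb A f a 1 = K ∩ ((Dp n \ I) ∩ C') := by
      rw [← e]
      ext z
      constructor
      · rintro ⟨⟨h1, h2⟩, h3⟩
        exact ⟨h1, ⟨hKD h1, h2⟩, h3⟩
      · rintro ⟨h1, ⟨h2, h3⟩, h4⟩
        exact ⟨⟨h1, h3⟩, h4⟩
    rw [this]
    exact hK.measurableSet.inter (hS.opn.measurableSet.inter hC'.measurableSet)
  calc ∫⁻ z in (K \ I) ∩ Cb A f a 1, ENNReal.ofReal (‖bt A f h z‖ ^ 2)
      ≤ ∫⁻ z in (K \ I) ∩ Cb A f a 1, ENNReal.ofReal C * ENNReal.ofReal (Dm (FF A f a) z) := by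
        apply setLIntegral_mono' hm
        intro z hz
        rw [← ENNReal.ofReal_mul hC0]
        exact ENNReal.ofReal_le_ofReal (hCb z ⟨⟨hKD hz.1.1, hz.1.2⟩, hz.2⟩)
    _ ≤ ∫⁻ z in (K \ I) ∩ Cb A f a 2, ENNReal.ofReal C * ENNReal.ofReal (Dm (FF A f a) z) := by
        apply lintegral_mono_set
        rintro z ⟨h1, h2, h3⟩
        exact ⟨h1, h2, Metric.closedBall_subset_closedBall (by norm_num) h3⟩
    _ = ENNReal.ofReal C * ∫⁻ z in (K \ I) ∩ Cb A f a 2, ENNReal.ofReal (Dm (FF A f a) z) := by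
        rw [lintegral_const_mul' _ _ ENNReal.ofReal_ne_top]
    _ < ⊤ := ENNReal.mul_lt_top ENNReal.ofReal_lt_top (hS.s1 K hKD hK a)

theorem bt_int (hSMO : T_SMO) (hOAO : T_OAO) (hDOM : T_DOM) [T2Space X] {A : Atl n X ι}
    {f : V n → X} {I : Set (V n)} {h : ι → V n → ℝ} (hS : Sing A f I) (hC : Clo A h)
    {K : Set (V n)} (hKD : K ⊆ Dp n) (hK : IsCompact K) : IntegrableOn (bt A f h) K := by
  refine ⟨?_, ?_⟩
  · rw [restrict_eq hS.null hKD]
    exact (((bt_cont hSMO hOAO hS hC).aestronglyMeasurable hS.opn.measurableSet).mono_measure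
      (Measure.restrict_mono (sdiff_subset_sdiff_left hKD) le_rfl))
  · rw [hasFiniteIntegral_iff_norm]
    calc ∫⁻ z in K, ENNReal.ofReal ‖bt A f h z‖
        ≤ ∫⁻ z in K, (1 + ENNReal.ofReal (‖bt A f h z‖ ^ 2)) := by
          apply lintegral_mono
          intro z
          simp only
          rw [← ENNReal.ofReal_one, ← ENNReal.ofReal_add zero_le_one (sq_nonneg _)]
          apply ENNReal.ofReal_le_ofReal
          nlinarith [sq_nonneg (‖bt A f h z‖ - 1)]
      _ = volume K + ∫⁻ z in K, ENNReal.ofReal (‖bt A f h z‖ ^ 2) := by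
          rw [lintegral_add_left measurable_const]
          simp
      _ < ⊤ := ENNReal.add_lt_top.2 ⟨hK.measure_lt_top, bt_sq hOAO hDOM hS hC hKD hK⟩

theorem isOpen_Dp : IsOpen (Dp n) := by
  have h1 : Continuous (nsq : V n → ℝ) := by
    unfold nsq
    fun_prop
  exact (isOpen_lt continuous_const h1).inter (isOpen_lt h1 continuous_const)

theorem bt_locInt (hSMO : T_SMO) (hOAO : T_OAO) (hDOM : T_DOM) [T2Space X] {A : Atl n X ι}
    {f : V n → X} {I : Set (V n)} {h : ι → V n → ℝ} (hS : Sing A f I) (hC : Clo A h) :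
    LocallyIntegrableOn (bt A f h) (Dp n) := by
  rw [locallyIntegrableOn_iff isOpen_Dp.isLocallyClosed]
  intro K hKD hK
  exact bt_int hSMO hOAO hDOM hS hC hKD hK


/-- the antisymmetrised product -/
noncomputable def EE (β : V n → V n →L[ℝ] ℝ) (g : V n → ℝ) (v v' z : V n) : ℝ :=
  β z v * fderiv ℝ g z v' - β z v' * fderiv ℝ g z v

theorem EE_int {β : V n → V n →L[ℝ] ℝ} {K : Set (V n)} (hβ : IntegrableOn β K) (hK : IsCompact K)
    {g : V n → ℝ} (hg : ContDiff ℝ ∞ g) (v v' : V n) : IntegrableOn (EE β g v v') K := by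
  have hc : ∀ w : V n, ContinuousOn (fun z => fderiv ℝ g z w) K := fun w =>
    ((hg.continuous_fderiv (by simp)).clm_apply continuous_const).continuousOn
  have h1 : ∀ w w' : V n, IntegrableOn (fun z => β z w * fderiv ℝ g z w') K := fun w w' =>
    IntegrableOn.mul_continuousOn (Integrable.apply_continuousLinearMap hβ w) (hc w') hK
  exact (h1 v v').sub (h1 v' v)

theorem EE_zero {β : V n → V n →L[ℝ] ℝ} {g : V n → ℝ} {v v' z : V n} (hz : z ∉ tsupport g) :
    EE β g v v' z = 0 := by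
  rw [EE, fderiv_tsupport hz]
  simp

theorem EE_setInt {β : V n → V n →L[ℝ] ℝ} {g : V n → ℝ} {U : Set (V n)} (hU : tsupport g ⊆ U)
    (v v' : V n) : ∫ z in U, EE β g v v' z = ∫ z, EE β g v v' z :=
  setIntegral_eq_integral_of_forall_compl_eq_zero fun _ hz => EE_zero fun h' => hz (hU h')

/-- local version implies global version -/
theorem wcl_of_cover {κ : Type*} [Fintype κ] {U : Set (V n)} {β : V n → V n →L[ℝ] ℝ}
    (O : κ → Set (V n)) (hO : ∀ a, IsOpen (O a)) (hUO : U ⊆ ⋃ a, O a)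
    (hβ : ∀ K ⊆ U, IsCompact K → IntegrableOn β K) (h : ∀ a, WCl (O a) β) : WCl U β := by
  intro q hq hqc hqs v v'
  obtain ⟨ψ, h1, h2, h3, -, W, hW, hKW, hW1⟩ := pou hqc O hO (hqs.trans hUO)
  have e1 : ∀ z, EE β q v v' z = ∑ a, EE β (fun x => ψ a x * q x) v v' z := by
    intro z
    have hq' : q =ᶠ[𝓝 z] fun x => ∑ a, ψ a x * q x := by
      by_cases hz : z ∈ tsupport q
      · filter_upwards [hW.mem_nhds (hKW hz)] with x hx
        rw [← Finset.sum_mul, hW1 x hx, one_mul]
      · filter_upwards [(isClosed_tsupport q).isOpen_compl.mem_nhds hz] with x hx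
        rw [image_eq_zero_of_notMem_tsupport hx]
        simp
    have hd : fderiv ℝ q z = ∑ a, fderiv ℝ (fun x => ψ a x * q x) z := by
      rw [hq'.fderiv_eq]
      exact fderiv_fun_sum fun a _ => (((h1 a).mul hq).differentiable (by simp)).differentiableAt
    simp only [EE]
    rw [hd]
    simp only [_root_.sum_apply]
    rw [Finset.mul_sum, Finset.mul_sum, ← Finset.sum_sub_distrib]
  change ∫ z in U, EE β q v v' z = 0
  rw [EE_setInt hqs, ← EE_setInt (U := tsupport q) le_rfl]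
  simp only [e1]
  have hs1 : ∀ a, tsupport (fun x => ψ a x * q x) ⊆ tsupport q := fun a =>
    tsupport_mul_subset_right
  have hs2 : ∀ a, tsupport (fun x => ψ a x * q x) ⊆ O a := fun a =>
    tsupport_mul_subset_left.trans (h3 a)
  rw [integral_finsetSum]
  · apply Finset.sum_eq_zero
    intro a _
    rw [EE_setInt (hs1 a), ← EE_setInt (hs2 a)]
    exact h a (fun x => ψ a x * q x) ((h1 a).mul hq) (h2 a).mul_right (hs2 a) v v'
  · intro a _
    exact EE_int (hβ _ hqs hqc) hqc ((h1 a).mul hq) v v'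

theorem wcl_congr {U : Set (V n)} {β β' : V n → V n →L[ℝ] ℝ} (hU : IsOpen U)
    (h : ∀ z ∈ U, β z = β' z) (hβ : WCl U β') : WCl U β := by
  intro p hp hpc hps v v'
  rw [← hβ p hp hpc hps v v']
  apply setIntegral_congr_fun hU.measurableSet
  intro z hz
  simp only
  rw [h z hz]

theorem bt_wcl_off (hSMO : T_SMO) (hOAO : T_OAO) (hDOM : T_DOM) [T2Space X] {A : Atl n X ι}
    {f : V n → X} {I : Set (V n)} {h : ι → V n → ℝ} (hS : Sing A f I) (hC : Clo A h) :
    WCl (Dp n \ I) (bt A f h) := by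
  apply wcl_of_cover (fun a => Oa A f I a) (fun a => (hOAO n X ι A f I hS a).1)
  · intro z hz
    exact mem_iUnion.2 ⟨_, (mem_Oa_ch A f I hz).1⟩
  · intro K hK hKc
    exact bt_int hSMO hOAO hDOM hS hC (hK.trans sdiff_subset) hKc
  · intro a
    obtain ⟨hO, hd, -⟩ := hOAO n X ι A f I hS a
    exact wcl_congr hO (fun z hz => bt_eq hS hC a hz)
      (wcl_smooth hO (smooth_comp hSMO hC a hO hd))


theorem ge_measurable {g : V n → ℝ} (hg : ContDiff ℝ ∞ g) (v : V n) :
    Measurable fun z => ENNReal.ofReal (ge g z v) := by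
  have hc : ∀ w : V n, Continuous fun z => fderiv ℝ g z w := fun w =>
    (hg.continuous_fderiv (by simp)).clm_apply continuous_const
  have h1 : Continuous fun z => ge g z v := by
    unfold ge dr
    exact ((((Complex.continuous_ofReal.comp (hc v)).sub
      (continuous_const.mul (Complex.continuous_ofReal.comp (hc (Complex.I • v))))).div_const
        _).norm).pow 2
  exact ENNReal.continuous_ofReal.measurable.comp h1.measurable

theorem ge_nonneg' (g : V n → ℝ) (z v : V n) : 0 ≤ ge g z v := sq_nonneg _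

theorem energy {A : Atl n X ι} {f : V n → X} {I : Set (V n)} (h0 : volume (Dp n ∩ I) = 0)
    {K : Set (V n)} (hKD : K ⊆ Dp n) {c : ℕ → V n → ℝ} (hc : ∀ j, ContDiff ℝ ∞ (c j))
    (h5 : ∀ a Φ k, Tendsto (fun j => ∫⁻ z in (K \ I) ∩ Cb A f a 2,
      ENNReal.ofReal (ge (c j) z (cf (mix Φ (FF A f a)) k z))) atTop (𝓝 0)) :
    Tendsto (fun j => ∫⁻ z in K, ENNReal.ofReal (‖fderiv ℝ (c j) z‖ ^ 2)) atTop (𝓝 0) := by
  have hsub : K \ I ⊆ ⋃ a, (K \ I) ∩ Cb A f a 2 := by
    intro z hz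
    have h1 := (mem_Oa_ch A f I ⟨hKD hz.1, hz.2⟩).2
    exact mem_iUnion.2 ⟨ch A (f z), hz, h1.1,
      Metric.closedBall_subset_closedBall (by norm_num) h1.2⟩
  have hle : ∀ j, ∫⁻ z in K, ENNReal.ofReal (‖fderiv ℝ (c j) z‖ ^ 2) ≤
      ∑ a, ∑ k, ENNReal.ofReal (8 * n) * ∫⁻ z in (K \ I) ∩ Cb A f a 2,
        ENNReal.ofReal (ge (c j) z (cf (mix (fun i => Sum.inl i) (FF A f a)) k z)) := by
    intro j
    rw [restrict_eq h0 hKD]
    refine (lintegral_mono_set hsub).trans ?_
    refine (lintegral_iUnion_le _ _).trans ?_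
    rw [tsum_fintype]
    apply Finset.sum_le_sum
    intro a _
    simp only [cf_id]
    calc ∫⁻ z in (K \ I) ∩ Cb A f a 2, ENNReal.ofReal (‖fderiv ℝ (c j) z‖ ^ 2)
        ≤ ∫⁻ z in (K \ I) ∩ Cb A f a 2,
            ∑ k, ENNReal.ofReal (8 * n) * ENNReal.ofReal (ge (c j) z (ek k)) := by
          apply lintegral_mono
          intro z
          simp only
          rw [← Finset.mul_sum, ← ENNReal.ofReal_sum_of_nonneg (fun k _ => ge_nonneg' _ _ _),
            ← ENNReal.ofReal_mul (by positivity)]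
          exact ENNReal.ofReal_le_ofReal (normsq_fderiv_le _ _)
      _ = ∑ k, ENNReal.ofReal (8 * n) * ∫⁻ z in (K \ I) ∩ Cb A f a 2,
            ENNReal.ofReal (ge (c j) z (ek k)) := by
          rw [lintegral_finsetSum _ (fun k _ => (ge_measurable (hc j) (ek k)).const_mul _)]
          apply Finset.sum_congr rfl
          intro k _
          rw [lintegral_const_mul' _ _ ENNReal.ofReal_ne_top]
  have hlim : Tendsto (fun j => ∑ a, ∑ k, ENNReal.ofReal (8 * n) *
      ∫⁻ z in (K \ I) ∩ Cb A f a 2,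
        ENNReal.ofReal (ge (c j) z (cf (mix (fun i => Sum.inl i) (FF A f a)) k z))) atTop
      (𝓝 (∑ _a : ι, ∑ _k : Fin n, ENNReal.ofReal (8 * n) * 0)) := by
    apply tendsto_finsetSum
    intro a _
    apply tendsto_finsetSum
    intro k _
    exact ENNReal.Tendsto.const_mul (h5 a _ k) (Or.inr ENNReal.ofReal_ne_top)
  simp only [mul_zero, Finset.sum_const_zero] at hlim
  exact tendsto_of_tendsto_of_tendsto_of_le_of_le tendsto_const_nhds hlim (fun j => bot_le) hle

theorem cs {K : Set (V n)} {a b : V n → ℝ} (ha : AEMeasurable a (volume.restrict K))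
    (hb : AEMeasurable b (volume.restrict K)) (ha0 : ∀ z, 0 ≤ a z) (hb0 : ∀ z, 0 ≤ b z) :
    ∫⁻ z in K, ENNReal.ofReal (a z * b z) ≤
      (∫⁻ z in K, ENNReal.ofReal (a z ^ 2)) ^ (1 / 2 : ℝ) *
        (∫⁻ z in K, ENNReal.ofReal (b z ^ 2)) ^ (1 / 2 : ℝ) := by
  have h := ENNReal.lintegral_mul_le_Lp_mul_Lq (volume.restrict K)
    (p := 2) (q := 2) (Real.holderConjugate_iff.2 ⟨by norm_num, by norm_num⟩)
    (f := fun z => ENNReal.ofReal (a z)) (g := fun z => ENNReal.ofReal (b z))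
    ha.ennreal_ofReal hb.ennreal_ofReal
  simp only [Pi.mul_apply] at h
  have e1 : ∀ z, ENNReal.ofReal (a z * b z) = ENNReal.ofReal (a z) * ENNReal.ofReal (b z) :=
    fun z => ENNReal.ofReal_mul (ha0 z)
  have e2 : ∀ x : ℝ, 0 ≤ x → ENNReal.ofReal (x ^ 2) = ENNReal.ofReal x ^ (2 : ℝ) := by
    intro x hx
    rw [ENNReal.ofReal_pow hx]
    norm_num
  simp only [e1, fun z => e2 (a z) (ha0 z), fun z => e2 (b z) (hb0 z)]
  exact h

theorem btw (hSMO : T_SMO) (hOAO : T_OAO) (hDOM : T_DOM) : T_BTW := by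
  intro n X _ _ _ ι _ A f I h hS hC
  refine ⟨bt_locInt hSMO hOAO hDOM hS hC, ?_, fun a z hz => bt_eq hS hC a hz⟩
  intro p hp hpc hps v v'
  set K := tsupport p with hK
  have hKc : IsCompact K := hpc
  obtain ⟨c, hc, hc01, hcI, hc1, h5⟩ := hS.s2 K hps hKc
  have hβK : IntegrableOn (bt A f h) K := bt_int hSMO hOAO hDOM hS hC hps hKc
  set β := bt A f h with hβ
  have hoff := bt_wcl_off hSMO hOAO hDOM hS hC
  have hen := energy (A := A) (f := f) hS.null hps hc h5
  have hsq : ∫⁻ z in K, ENNReal.ofReal (‖β z‖ ^ 2) < ⊤ := bt_sq hOAO hDOM hS hC hps hKc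
  obtain ⟨B, hB⟩ := hp.continuous.bounded_above_of_compact_support hpc
  have hB0 : 0 ≤ B := (norm_nonneg _).trans (hB 0)
  -- product rule
  have hprod : ∀ j z, EE β (fun x => c j x * p x) v v' z
      = c j z * EE β p v v' z + p z * EE β (c j) v v' z := by
    intro j z
    have hd : fderiv ℝ (fun x => c j x * p x) z = c j z • fderiv ℝ p z + p z • fderiv ℝ (c j) z :=
      fderiv_fun_mul ((hc j).differentiable (by simp)).differentiableAt
        (hp.differentiable (by simp)).differentiableAt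
    simp only [EE]
    rw [hd]
    simp only [_root_.add_apply, _root_.smul_apply, smul_eq_mul]
    ring
  have hzero : ∀ j, ∫ z in K, EE β (fun x => c j x * p x) v v' z = 0 := by
    intro j
    have hs1 : tsupport (fun x => c j x * p x) ⊆ K := tsupport_mul_subset_right
    have hs2 : tsupport (fun x => c j x * p x) ⊆ Dp n \ I := by
      intro z hz
      refine ⟨hps (hs1 hz), fun hzI => ?_⟩
      have h1 := hcI j z ⟨hs1 hz, hzI⟩
      have h3 : z ∉ tsupport (fun x => c j x * p x) := by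
        rw [notMem_tsupport_iff_eventuallyEq]
        filter_upwards [h1] with x hx
        simp [hx]
      exact h3 hz
    have h2 := hoff (fun x => c j x * p x) ((hc j).mul hp) hpc.mul_left hs2 v v'
    rw [EE_setInt hs1, ← EE_setInt hs2]
    exact h2
  have hi1 : IntegrableOn (EE β p v v') K := EE_int hβK hKc hp v v'
  have hi2 : ∀ j, IntegrableOn (EE β (c j) v v') K := fun j => EE_int hβK hKc (hc j) v v'
  have hi3 : ∀ j, IntegrableOn (fun z => c j z * EE β p v v' z) K := fun j =>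
    IntegrableOn.continuousOn_mul (hc j).continuous.continuousOn hi1 hKc
  have hi4 : ∀ j, IntegrableOn (fun z => p z * EE β (c j) v v' z) K := fun j =>
    IntegrableOn.continuousOn_mul hp.continuous.continuousOn (hi2 j) hKc
  have l1 : Tendsto (fun j => ∫ z in K, c j z * EE β p v v' z) atTop
      (𝓝 (∫ z in K, EE β p v v' z)) := by
    apply tendsto_integral_of_dominated_convergence (fun z => ‖EE β p v v' z‖)
    · exact fun j => (hi3 j).aestronglyMeasurable
    · exact hi1.norm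
    · intro j
      apply Eventually.of_forall
      intro z
      rw [norm_mul, Real.norm_eq_abs, abs_of_nonneg (hc01 j z).1]
      exact mul_le_of_le_one_left (norm_nonneg _) (hc01 j z).2
    · have hKI : MeasurableSet (K \ I) := by
        have : K \ I = K ∩ (Dp n \ I) := by
          ext z
          exact ⟨fun hz => ⟨hz.1, hps hz.1, hz.2⟩, fun hz => ⟨hz.1, hz.2.2⟩⟩
        rw [this]
        exact hKc.measurableSet.inter hS.opn.measurableSet
      rw [restrict_eq hS.null hps]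
      filter_upwards [ae_restrict_mem hKI] with z hz
      have := (hc1 z hz).mul_const (EE β p v v' z)
      rwa [one_mul] at this
  have l2 : Tendsto (fun j => ∫ z in K, p z * EE β (c j) v v' z) atTop (𝓝 0) := by
    rw [tendsto_zero_iff_norm_tendsto_zero]
    have hle : ∀ j, ENNReal.ofReal ‖∫ z in K, p z * EE β (c j) v v' z‖ ≤
        ENNReal.ofReal (B * (2 * ‖v‖ * ‖v'‖)) *
          ((∫⁻ z in K, ENNReal.ofReal (‖β z‖ ^ 2)) ^ (1 / 2 : ℝ) *
            (∫⁻ z in K, ENNReal.ofReal (‖fderiv ℝ (c j) z‖ ^ 2)) ^ (1 / 2 : ℝ)) := by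
      intro j
      rw [ofReal_norm]
      refine (enorm_integral_le_lintegral_enorm _).trans ?_
      calc ∫⁻ z in K, ‖p z * EE β (c j) v v' z‖ₑ
          ≤ ∫⁻ z in K, ENNReal.ofReal (B * (2 * ‖v‖ * ‖v'‖)) *
              ENNReal.ofReal (‖β z‖ * ‖fderiv ℝ (c j) z‖) := by
            apply lintegral_mono
            intro z
            simp only
            rw [← ofReal_norm, ← ENNReal.ofReal_mul (by positivity)]
            apply ENNReal.ofReal_le_ofReal
            have h1 : ‖EE β (c j) v v' z‖ ≤ 2 * ‖v‖ * ‖v'‖ * (‖β z‖ * ‖fderiv ℝ (c j) z‖) := by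
              rw [EE]
              refine (norm_sub_le _ _).trans ?_
              rw [norm_mul, norm_mul]
              have a1 := (β z).le_opNorm v
              have a2 := (β z).le_opNorm v'
              have a3 := (fderiv ℝ (c j) z).le_opNorm v
              have a4 := (fderiv ℝ (c j) z).le_opNorm v'
              calc ‖β z v‖ * ‖fderiv ℝ (c j) z v'‖ + ‖β z v'‖ * ‖fderiv ℝ (c j) z v‖
                  ≤ (‖β z‖ * ‖v‖) * (‖fderiv ℝ (c j) z‖ * ‖v'‖) +
                    (‖β z‖ * ‖v'‖) * (‖fderiv ℝ (c j) z‖ * ‖v‖) := by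
                    apply add_le_add
                    · exact mul_le_mul a1 a4 (norm_nonneg _) (by positivity)
                    · exact mul_le_mul a2 a3 (norm_nonneg _) (by positivity)
                _ = _ := by ring
            rw [norm_mul]
            calc ‖p z‖ * ‖EE β (c j) v v' z‖
                ≤ B * (2 * ‖v‖ * ‖v'‖ * (‖β z‖ * ‖fderiv ℝ (c j) z‖)) :=
                  mul_le_mul (hB z) h1 (norm_nonneg _) hB0
              _ = _ := by ring
        _ = ENNReal.ofReal (B * (2 * ‖v‖ * ‖v'‖)) *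
              ∫⁻ z in K, ENNReal.ofReal (‖β z‖ * ‖fderiv ℝ (c j) z‖) := by
            rw [lintegral_const_mul' _ _ ENNReal.ofReal_ne_top]
        _ ≤ _ := by
            apply mul_le_mul_right
            apply cs
            · exact hβK.aestronglyMeasurable.norm.aemeasurable
            · exact ((hc j).continuous_fderiv (by simp)).norm.aemeasurable
            · exact fun z => norm_nonneg _
            · exact fun z => norm_nonneg _
    have hlim : Tendsto (fun j => ENNReal.ofReal (B * (2 * ‖v‖ * ‖v'‖)) *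
          ((∫⁻ z in K, ENNReal.ofReal (‖β z‖ ^ 2)) ^ (1 / 2 : ℝ) *
            (∫⁻ z in K, ENNReal.ofReal (‖fderiv ℝ (c j) z‖ ^ 2)) ^ (1 / 2 : ℝ))) atTop (𝓝 0) := by
      have h1 : Tendsto (fun j =>
          (∫⁻ z in K, ENNReal.ofReal (‖fderiv ℝ (c j) z‖ ^ 2)) ^ (1 / 2 : ℝ)) atTop (𝓝 0) := by
        have := (ENNReal.continuous_rpow_const (y := (1 / 2 : ℝ))).tendsto 0 |>.comp hen
        rwa [ENNReal.zero_rpow_of_pos (by norm_num)] at this
      have h2 := ENNReal.Tendsto.const_mul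
        (a := (∫⁻ z in K, ENNReal.ofReal (‖β z‖ ^ 2)) ^ (1 / 2 : ℝ)) h1
        (Or.inr (ENNReal.rpow_ne_top_of_nonneg (by norm_num) hsq.ne))
      rw [mul_zero] at h2
      have h3 := ENNReal.Tendsto.const_mul
        (a := ENNReal.ofReal (B * (2 * ‖v‖ * ‖v'‖))) h2 (Or.inr ENNReal.ofReal_ne_top)
      rwa [mul_zero] at h3
    have h4 := tendsto_of_tendsto_of_tendsto_of_le_of_le tendsto_const_nhds hlim
      (fun j => bot_le) hle
    have h5 := (ENNReal.tendsto_toReal ENNReal.zero_ne_top).comp h4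
    simpa [Function.comp_def] using h5
  have l3 := l1.add l2
  rw [add_zero] at l3
  have e : ∀ j, (∫ z in K, c j z * EE β p v v' z) + ∫ z in K, p z * EE β (c j) v v' z = 0 := by
    intro j
    rw [← integral_add (hi3 j) (hi4 j), ← hzero j]
    congr 1
    ext z
    exact (hprod j z).symm
  simp only [e] at l3
  have l4 := tendsto_nhds_unique l3 tendsto_const_nhds
  change ∫ z in Dp n, EE β p v v' z = 0
  rw [EE_setInt hps, ← EE_setInt (U := K) le_rfl]
  exact l4

end Pool.Agent.H67.VG
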