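import Pool.Agent.H67.VG.WGS

/-!
# VG: uniqueness up to constants (module WG0)
-/

open MeasureTheory Set Filter Topology
open scoped ENNReal NNReal ContDiff Manifold

namespace Pool.Agent.H67.VG

open Pool.Agent.H95.VG

variable {n : ℕ}

theorem transl_le {g : V n → ℝ≥0∞} {A B : Set (V n)} (hA : MeasurableSet A)
    (hB : MeasurableSet B) (w : V n) (h : ∀ x ∈ A, x + w ∈ B) :
    ∫⁻ x in A, g (x + w) ≤ ∫⁻ y in B, g y := by
  rw [← lintegral_indicator hA, ← lintegral_indicator hB,
    ← lintegral_add_right_eq_self (fun y => B.indicator g y) w]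
  apply lintegral_mono
  intro x
  by_cases hx : x ∈ A
  · simp only [indicator_of_mem hx, indicator_of_mem (h x hx)]
    exact le_rfl
  · simp only [indicator_of_notMem hx]
    exact bot_le

theorem ftc_le {H : V n → ℝ} (hH : ContDiff ℝ ∞ H) (x h : V n) :
    ENNReal.ofReal |H (x + h) - H x| ≤
      ∫⁻ t in Ioc (0 : ℝ) 1, ENNReal.ofReal ‖fderiv ℝ H (x + t • h)‖ * ENNReal.ofReal ‖h‖ := by
  have hd : ∀ t : ℝ, HasDerivAt (fun t : ℝ => H (x + t • h)) (fderiv ℝ H (x + t • h) h) t := by
    intro t
    have h1 : HasDerivAt (fun t : ℝ => x + t • h) h t := by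
      simpa using ((hasDerivAt_id t).smul_const h).const_add x
    exact (hH.differentiable (by simp) _).hasFDerivAt.comp_hasDerivAt t h1
  have hc : Continuous fun t : ℝ => fderiv ℝ H (x + t • h) h :=
    ((hH.continuous_fderiv (by simp)).comp (by fun_prop)).clm_apply continuous_const
  have e := intervalIntegral.integral_eq_sub_of_hasDerivAt (a := 0) (b := 1)
    (fun t _ => hd t) (hc.intervalIntegrable _ _)
  simp only [one_smul, zero_smul, add_zero] at e
  rw [← e, intervalIntegral.integral_of_le zero_le_one, ← Real.enorm_eq_ofReal_abs]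
  refine (enorm_integral_le_lintegral_enorm _).trans ?_
  apply lintegral_mono
  intro t
  simp only
  rw [← ofReal_norm, ← ENNReal.ofReal_mul (norm_nonneg _)]
  exact ENNReal.ofReal_le_ofReal (ContinuousLinearMap.le_opNorm _ _)

theorem transl_diff_le {H : V n → ℝ} (hH : ContDiff ℝ ∞ H) {z h : V n} {r : ℝ} (hh : ‖h‖ ≤ r) :
    ∫⁻ x in Metric.ball z r, ENNReal.ofReal |H (x + h) - H x| ≤
      ENNReal.ofReal r * ∫⁻ y in Metric.closedBall z (2 * r), ENNReal.ofReal ‖fderiv ℝ H y‖ := by
  have hr : 0 ≤ r := (norm_nonneg h).trans hh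
  have hcf : Continuous (fderiv ℝ H) := hH.continuous_fderiv (by simp)
  calc ∫⁻ x in Metric.ball z r, ENNReal.ofReal |H (x + h) - H x|
      ≤ ∫⁻ x in Metric.ball z r, ∫⁻ t in Ioc (0 : ℝ) 1,
          ENNReal.ofReal ‖fderiv ℝ H (x + t • h)‖ * ENNReal.ofReal ‖h‖ :=
        lintegral_mono fun x => ftc_le hH x h
    _ = ∫⁻ t in Ioc (0 : ℝ) 1, ∫⁻ x in Metric.ball z r,
          ENNReal.ofReal ‖fderiv ℝ H (x + t • h)‖ * ENNReal.ofReal ‖h‖ := by
        apply lintegral_lintegral_swap
        apply Measurable.aemeasurable
        apply Measurable.mul_const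
        apply ENNReal.measurable_ofReal.comp
        apply Continuous.measurable
        exact (hcf.comp (by fun_prop)).norm
    _ ≤ ∫⁻ t in Ioc (0 : ℝ) 1, ENNReal.ofReal r *
          ∫⁻ y in Metric.closedBall z (2 * r), ENNReal.ofReal ‖fderiv ℝ H y‖ := by
        apply setLIntegral_mono' measurableSet_Ioc
        intro t ht
        rw [lintegral_mul_const' _ _ ENNReal.ofReal_ne_top, mul_comm]
        apply mul_le_mul' (ENNReal.ofReal_le_ofReal hh)
        apply transl_le (g := fun y => ENNReal.ofReal ‖fderiv ℝ H y‖) measurableSet_ball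
          measurableSet_closedBall
        intro x hx
        rw [Metric.mem_ball] at hx
        rw [Metric.mem_closedBall]
        calc dist (x + t • h) z ≤ dist (x + t • h) x + dist x z := dist_triangle _ _ _
          _ ≤ r + r := by
            apply add_le_add _ hx.le
            rw [dist_eq_norm, add_sub_cancel_left, norm_smul, Real.norm_eq_abs,
              abs_of_pos ht.1]
            nlinarith [ht.2, norm_nonneg h, ht.1]
          _ = 2 * r := by ring
    _ = ENNReal.ofReal r *
          ∫⁻ y in Metric.closedBall z (2 * r), ENNReal.ofReal ‖fderiv ℝ H y‖ := by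
        rw [setLIntegral_const, Real.volume_Ioc]
        simp

/-- module WG0 -/
theorem wg0 : ∀ (n : ℕ) (U : Set (V n)) (F F' : V n → ℝ) (β : V n → V n →L[ℝ] ℝ),
    IsOpen U → LocallyIntegrableOn F U → LocallyIntegrableOn F' U → LocallyIntegrableOn β U →
    WGr U F β → WGr U F' β →
    ∀ z ∈ U, ∃ r : ℝ, 0 < r ∧ Metric.ball z r ⊆ U ∧
      ∃ c : ℝ, ∀ᵐ x ∂(volume.restrict (Metric.ball z r)), F x - F' x = c := by
  intro n U F F' β hU hF hF' hβ hG hG' z hz
  obtain ⟨ρ, hρ, hρU⟩ := Metric.isOpen_iff.1 hU z hz
  set r : ℝ := ρ / 4 with hr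
  have hr0 : 0 < r := by positivity
  set K := Metric.closedBall z (2 * r) with hK
  have hKU : K ⊆ U := (Metric.closedBall_subset_ball (by rw [hr]; linarith)).trans hρU
  have hKc : IsCompact K := isCompact_closedBall _ _
  obtain ⟨G, hGs, hG0, hG1⟩ := hG K hKU hKc
  obtain ⟨G', hGs', hG0', hG1'⟩ := hG' K hKU hKc
  have hFK : IntegrableOn F K := hF.integrableOn_compact_subset hKU hKc
  have hFK' : IntegrableOn F' K := hF'.integrableOn_compact_subset hKU hKc
  have hβK : IntegrableOn β K := hβ.integrableOn_compact_subset hKU hKc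
  -- measurable representative of the difference
  have hDm : AEStronglyMeasurable (fun x => F x - F' x) (volume.restrict K) :=
    hFK.aestronglyMeasurable.sub hFK'.aestronglyMeasurable
  set D : V n → ℝ := hDm.mk _ with hD
  have hDmeas : Measurable D := hDm.stronglyMeasurable_mk.measurable
  have hDae : ∀ᵐ x ∂(volume.restrict K), F x - F' x = D x := hDm.ae_eq_mk
  set H : ℕ → V n → ℝ := fun j x => G j x - G' j x with hH
  have hHs : ∀ j, ContDiff ℝ ∞ (H j) := fun j => (hGs j).sub (hGs' j)
  -- convergence
  have t0 : Tendsto (fun j => ∫⁻ x in K, ENNReal.ofReal |D x - H j x|) atTop (𝓝 0) := by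
    have hle : ∀ j, ∫⁻ x in K, ENNReal.ofReal |D x - H j x| ≤
        (∫⁻ x in K, ENNReal.ofReal |G j x - F x|) + ∫⁻ x in K, ENNReal.ofReal |G' j x - F' x| := by
      intro j
      rw [← lintegral_add_left']
      · apply lintegral_mono_ae
        filter_upwards [hDae] with x hx
        rw [← hx, ← ENNReal.ofReal_add (abs_nonneg _) (abs_nonneg _)]
        apply ENNReal.ofReal_le_ofReal
        calc |F x - F' x - (G j x - G' j x)| = |(G' j x - F' x) - (G j x - F x)| := by
              congr 1; ring
          _ ≤ |G' j x - F' x| + |G j x - F x| := abs_sub _ _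
          _ = _ := add_comm _ _
      · apply AEMeasurable.ennreal_ofReal
        exact (((hGs j).continuous.aestronglyMeasurable.sub
          hFK.aestronglyMeasurable).norm).aemeasurable
    have := hG0.add hG0'
    rw [add_zero] at this
    exact tendsto_of_tendsto_of_tendsto_of_le_of_le tendsto_const_nhds this (fun j => bot_le) hle
  have t1 : Tendsto (fun j => ∫⁻ x in K, ENNReal.ofReal ‖fderiv ℝ (H j) x‖) atTop (𝓝 0) := by
    have hle : ∀ j, ∫⁻ x in K, ENNReal.ofReal ‖fderiv ℝ (H j) x‖ ≤
        (∫⁻ x in K, ENNReal.ofReal ‖fderiv ℝ (G j) x - β x‖) +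
          ∫⁻ x in K, ENNReal.ofReal ‖fderiv ℝ (G' j) x - β x‖ := by
      intro j
      rw [← lintegral_add_left']
      · apply lintegral_mono
        intro x
        simp only
        rw [← ENNReal.ofReal_add (norm_nonneg _) (norm_nonneg _)]
        apply ENNReal.ofReal_le_ofReal
        have e : fderiv ℝ (H j) x = fderiv ℝ (G j) x - fderiv ℝ (G' j) x :=
          fderiv_fun_sub ((hGs j).differentiable (by simp) x) ((hGs' j).differentiable (by simp) x)
        rw [e]
        calc ‖fderiv ℝ (G j) x - fderiv ℝ (G' j) x‖
            = ‖(fderiv ℝ (G j) x - β x) - (fderiv ℝ (G' j) x - β x)‖ := by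
              congr 1; abel
          _ ≤ _ := norm_sub_le _ _
      · apply AEMeasurable.ennreal_ofReal
        exact ((((hGs j).continuous_fderiv (by simp)).aestronglyMeasurable.sub
          hβK.aestronglyMeasurable).norm).aemeasurable
    have := hG1.add hG1'
    rw [add_zero] at this
    exact tendsto_of_tendsto_of_tendsto_of_le_of_le tendsto_const_nhds this (fun j => bot_le) hle
  have hbK : ∀ h : V n, ‖h‖ ≤ r → ∀ x ∈ Metric.ball z r, x + h ∈ K := by
    intro h hh x hx
    rw [Metric.mem_ball] at hx
    rw [hK, Metric.mem_closedBall]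
    calc dist (x + h) z ≤ dist (x + h) x + dist x z := dist_triangle _ _ _
      _ ≤ r + r := by
        apply add_le_add _ hx.le
        rwa [dist_eq_norm, add_sub_cancel_left]
      _ = 2 * r := by ring
  -- translations do not change D
  have key : ∀ h ∈ Metric.ball (0 : V n) r,
      ∫⁻ x in Metric.ball z r, ENNReal.ofReal |D (x + h) - D x| = 0 := by
    intro h hh
    rw [mem_ball_zero_iff] at hh
    have hle : ∀ j, ∫⁻ x in Metric.ball z r, ENNReal.ofReal |D (x + h) - D x| ≤
        (∫⁻ x in K, ENNReal.ofReal |D x - H j x|) +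
        (ENNReal.ofReal r * (∫⁻ x in K, ENNReal.ofReal ‖fderiv ℝ (H j) x‖) +
          ∫⁻ x in K, ENNReal.ofReal |D x - H j x|) := by
      intro j
      have hHm : Measurable (H j) := (hHs j).continuous.measurable
      calc ∫⁻ x in Metric.ball z r, ENNReal.ofReal |D (x + h) - D x|
          ≤ ∫⁻ x in Metric.ball z r, (ENNReal.ofReal |D (x + h) - H j (x + h)| +
              (ENNReal.ofReal |H j (x + h) - H j x| + ENNReal.ofReal |D x - H j x|)) := by
            apply lintegral_mono
            intro x
            simp only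
            rw [← ENNReal.ofReal_add (abs_nonneg _) (abs_nonneg _),
              ← ENNReal.ofReal_add (abs_nonneg _) (by positivity)]
            apply ENNReal.ofReal_le_ofReal
            calc |D (x + h) - D x| = |(D (x + h) - H j (x + h)) + ((H j (x + h) - H j x)
                  - (D x - H j x))| := by congr 1; ring
              _ ≤ |D (x + h) - H j (x + h)| + |(H j (x + h) - H j x) - (D x - H j x)| :=
                abs_add_le _ _
              _ ≤ _ := by
                gcongr
                exact abs_sub _ _
        _ = (∫⁻ x in Metric.ball z r, ENNReal.ofReal |D (x + h) - H j (x + h)|) +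
              ((∫⁻ x in Metric.ball z r, ENNReal.ofReal |H j (x + h) - H j x|) +
                ∫⁻ x in Metric.ball z r, ENNReal.ofReal |D x - H j x|) := by
            rw [lintegral_add_left, lintegral_add_left]
            · exact (((hHm.comp (measurable_id.add_const h)).sub hHm).norm).ennreal_ofReal
            · exact (((hDmeas.comp (measurable_id.add_const h)).sub
                (hHm.comp (measurable_id.add_const h))).norm).ennreal_ofReal
        _ ≤ _ := by
            apply add_le_add
            · exact transl_le (g := fun y => ENNReal.ofReal |D y - H j y|) measurableSet_ball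
                measurableSet_closedBall h (hbK h hh.le)
            · apply add_le_add
              · exact transl_diff_le (hHs j) hh.le
              · exact lintegral_mono_set ((Metric.ball_subset_closedBall).trans
                  (Metric.closedBall_subset_closedBall (by linarith)))
    have tl : Tendsto (fun j => (∫⁻ x in K, ENNReal.ofReal |D x - H j x|) +
        (ENNReal.ofReal r * (∫⁻ x in K, ENNReal.ofReal ‖fderiv ℝ (H j) x‖) +
          ∫⁻ x in K, ENNReal.ofReal |D x - H j x|)) atTop (𝓝 0) := by
      have h1 := ENNReal.Tendsto.const_mul (a := ENNReal.ofReal r) t1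
        (Or.inr ENNReal.ofReal_ne_top)
      have := t0.add (h1.add t0)
      simpa using this
    exact le_antisymm (ge_of_tendsto' tl hle) bot_le
  have hmeas2 : Measurable (fun p : V n × V n => ENNReal.ofReal |D (p.1 + p.2) - D p.1|) :=
    (((hDmeas.comp (measurable_fst.add measurable_snd)).sub
      (hDmeas.comp measurable_fst)).norm).ennreal_ofReal
  have hswap : ∫⁻ x in Metric.ball z r, ∫⁻ h in Metric.ball (0 : V n) r,
      ENNReal.ofReal |D (x + h) - D x| = 0 := by
    rw [lintegral_lintegral_swap hmeas2.aemeasurable]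
    rw [setLIntegral_congr_fun measurableSet_ball (g := fun _ => 0) (fun h hh => key h hh)]
    simp
  have hae : ∀ᵐ x ∂(volume.restrict (Metric.ball z r)), ∫⁻ h in Metric.ball (0 : V n) r,
      ENNReal.ofReal |D (x + h) - D x| = 0 := by
    have := (lintegral_eq_zero_iff (hmeas2.lintegral_prod_right')).1 hswap
    exact this
  have hsub : Metric.ball z (r / 2) ⊆ Metric.ball z r := Metric.ball_subset_ball (by linarith)
  have hae' := ae_restrict_of_ae_restrict_of_subset hsub hae
  have hne : (ae (volume.restrict (Metric.ball z (r / 2)))).NeBot := by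
    rw [ae_neBot]
    intro h0
    rw [Measure.restrict_eq_zero] at h0
    exact (Metric.measure_ball_pos volume z (by positivity : (0 : ℝ) < r / 2)).ne' h0
  obtain ⟨x, hx0, hxb⟩ := (hae'.and (ae_restrict_mem measurableSet_ball)).exists
  refine ⟨r / 2, by positivity, (Metric.ball_subset_closedBall.trans
    (Metric.closedBall_subset_closedBall (by linarith))).trans hKU, D x, ?_⟩
  have h1 : ∫⁻ y in Metric.ball z (r / 2), ENNReal.ofReal |D y - D x| ≤ 0 := by
    rw [← hx0]
    have := transl_le (g := fun y => ENNReal.ofReal |D (x + y) - D x|)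
      (A := Metric.ball z (r / 2)) (B := Metric.ball (0 : V n) r) measurableSet_ball
      measurableSet_ball (-x) (by
        intro y hy
        rw [mem_ball_zero_iff, ← sub_eq_add_neg, ← dist_eq_norm]
        rw [Metric.mem_ball] at hy hxb
        calc dist y x ≤ dist y z + dist x z := dist_triangle_right _ _ _
          _ < r / 2 + r / 2 := add_lt_add hy hxb
          _ = r := by ring)
    refine le_trans (le_of_eq ?_) this
    congr 1
    ext y
    congr 3
    congr 1
    abel
  have h2 := (lintegral_eq_zero_iff (((hDmeas.sub_const (D x)).norm).ennreal_ofReal)).1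
    (le_antisymm h1 bot_le)
  have hsubK : Metric.ball z (r / 2) ⊆ K := Metric.ball_subset_closedBall.trans
    (Metric.closedBall_subset_closedBall (by linarith))
  filter_upwards [h2, ae_restrict_of_ae_restrict_of_subset hsubK hDae] with y hy hy'
  rw [hy']
  have : |D y - D x| ≤ 0 := by
    have h3 : ENNReal.ofReal |D y - D x| = 0 := hy
    rwa [ENNReal.ofReal_eq_zero] at h3
  have h4 := abs_nonpos_iff.1 this
  linarith

end Pool.Agent.H67.VG
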