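import Pool.Agent.H67.VG.Pou
import Pool.Agent.H67.VG.WG0
import Pool.Agent.H95.VG.Targets3

/-!
# VG: gluing on the punctured ball (module GLU)
-/

open MeasureTheory Set Filter Topology
open scoped ENNReal NNReal ContDiff Manifold

namespace Pool.Agent.H67.VG

open Pool.Agent.H95.VG

variable {n : ℕ}

/-! ## locality of `WGr` -/

theorem wgr_congr {Q : Set (V n)} {F F' : V n → ℝ} {β : V n → V n →L[ℝ] ℝ}
    (h : ∀ᵐ z ∂(volume.restrict Q), F z = F' z) (hW : WGr Q F' β) : WGr Q F β := by
  intro K hKQ hK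
  obtain ⟨G, hG, h0, h1⟩ := hW K hKQ hK
  refine ⟨G, hG, ?_, h1⟩
  refine h0.congr fun j => ?_
  apply lintegral_congr_ae
  filter_upwards [ae_restrict_of_ae_restrict_of_subset hKQ h] with z hz
  rw [hz]

theorem wgr_sub_const {Q : Set (V n)} {F : V n → ℝ} {β : V n → V n →L[ℝ] ℝ} (d : ℝ)
    (hW : WGr Q F β) : WGr Q (fun z => F z - d) β := by
  intro K hKQ hK
  obtain ⟨G, hG, h0, h1⟩ := hW K hKQ hK
  refine ⟨fun j z => G j z - d, fun j => (hG j).sub contDiff_const, ?_, ?_⟩
  · refine h0.congr fun j => ?_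
    congr 1
    ext z
    congr 2
    ring
  · refine h1.congr fun j => ?_
    congr 1
    ext z
    rw [fderiv_sub_const]

theorem wgr_mono {Q Q' : Set (V n)} {F : V n → ℝ} {β : V n → V n →L[ℝ] ℝ} (h : Q' ⊆ Q)
    (hW : WGr Q F β) : WGr Q' F β := fun K hK hKc => hW K (hK.trans h) hKc

theorem wcl_mono {Q Q' : Set (V n)} {β : V n → V n →L[ℝ] ℝ} (h : Q' ⊆ Q)
    (hW : WCl Q β) : WCl Q' β := by
  intro p hp hpc hps v v'
  rw [← hW p hp hpc (hps.trans h) v v']
  have e : ∀ S : Set (V n), tsupport p ⊆ S →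
      ∫ z in S, (β z v * fderiv ℝ p z v' - β z v' * fderiv ℝ p z v)
        = ∫ z, (β z v * fderiv ℝ p z v' - β z v' * fderiv ℝ p z v) := fun S hS =>
    setIntegral_eq_univ hS fun z hz => by rw [fderiv_tsupport hz]; simp
  rw [e Q' hps, e Q (hps.trans h)]

theorem lint_le {K L : Set (V n)} (hL : MeasurableSet L) (g : V n → ℝ≥0∞) :
    ∫⁻ z in K, L.indicator g z ≤ ∫⁻ z in L, g z := by
  rw [← lintegral_indicator hL]
  exact lintegral_mono' Measure.restrict_le_self le_rfl

theorem wgr_glue {κ : Type*} [Fintype κ] {U : Set (V n)} {Q : κ → Set (V n)}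
    (hQ : ∀ a, IsOpen (Q a)) (hU : U ⊆ ⋃ a, Q a) {F : V n → ℝ} {β : V n → V n →L[ℝ] ℝ}
    (hF : ∀ a, LocallyIntegrableOn F (Q a)) (hβ : ∀ a, LocallyIntegrableOn β (Q a))
    (h : ∀ a, WGr (Q a) F β) : WGr U F β := by
  intro K hKU hK
  obtain ⟨ψ, h1, h2, h3, h01, W, hW, hKW, hW1⟩ := pou hK Q hQ (hKU.trans hU)
  have hg := fun a => h a (tsupport (ψ a)) (h3 a) (h2 a)
  choose G hG hG0 hG1 using hg
  have hM : ∀ a, ∃ M : ℝ, ∀ z, ‖fderiv ℝ (ψ a) z‖ ≤ M := fun a =>
    ((h1 a).continuous_fderiv (by simp)).bounded_above_of_compact_support ((h2 a).fderiv ℝ)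
  choose M hM using hM
  have hM0 : ∀ a, 0 ≤ M a := fun a => (norm_nonneg _).trans (hM a 0)
  have hmeas : ∀ a, MeasurableSet (tsupport (ψ a)) := fun a => (isClosed_tsupport _).measurableSet
  have hFm : ∀ a, AEMeasurable F (volume.restrict (tsupport (ψ a))) := fun a =>
    ((hF a).integrableOn_compact_subset (h3 a) (h2 a)).aestronglyMeasurable.aemeasurable
  have hβm : ∀ a, AEStronglyMeasurable β (volume.restrict (tsupport (ψ a))) := fun a =>
    ((hβ a).integrableOn_compact_subset (h3 a) (h2 a)).aestronglyMeasurable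
  have m0 : ∀ a j, AEMeasurable (fun z => ENNReal.ofReal |G a j z - F z|)
      (volume.restrict (tsupport (ψ a))) := by
    intro a j
    have := ((hG a j).continuous.aemeasurable (μ := volume.restrict (tsupport (ψ a)))).sub (hFm a)
    exact (this.norm).ennreal_ofReal
  have m1 : ∀ a j, AEMeasurable (fun z => ENNReal.ofReal ‖fderiv ℝ (G a j) z - β z‖)
      (volume.restrict (tsupport (ψ a))) := by
    intro a j
    have := (((hG a j).continuous_fderiv (by simp)).aestronglyMeasurable
      (μ := volume.restrict (tsupport (ψ a)))).sub (hβm a)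
    exact (this.norm.aemeasurable).ennreal_ofReal
  have mi : ∀ a (g : V n → ℝ≥0∞), AEMeasurable g (volume.restrict (tsupport (ψ a))) →
      AEMeasurable ((tsupport (ψ a)).indicator g) (volume.restrict K) := by
    intro a g hg
    exact ((aemeasurable_indicator_iff (hmeas a)).2 hg).restrict
  refine ⟨fun j z => ∑ a, ψ a z * G a j z, fun j => ContDiff.sum fun a _ => (h1 a).mul (hG a j),
    ?_, ?_⟩
  · have hle : ∀ j, ∫⁻ z in K, ENNReal.ofReal |(∑ a, ψ a z * G a j z) - F z| ≤
        ∑ a, ∫⁻ z in tsupport (ψ a), ENNReal.ofReal |G a j z - F z| := by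
      intro j
      calc ∫⁻ z in K, ENNReal.ofReal |(∑ a, ψ a z * G a j z) - F z|
          ≤ ∫⁻ z in K, ∑ a, (tsupport (ψ a)).indicator
              (fun z => ENNReal.ofReal |G a j z - F z|) z := by
            apply setLIntegral_mono' hK.measurableSet
            intro z hz
            have e : (∑ a, ψ a z * G a j z) - F z = ∑ a, ψ a z * (G a j z - F z) := by
              simp only [mul_sub]
              rw [Finset.sum_sub_distrib, ← Finset.sum_mul, hW1 z (hKW hz), one_mul]
            rw [e]
            refine (ENNReal.ofReal_le_ofReal (Finset.abs_sum_le_sum_abs _ _)).trans ?_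
            rw [ENNReal.ofReal_sum_of_nonneg (fun a _ => abs_nonneg _)]
            apply Finset.sum_le_sum
            intro a _
            by_cases hz' : z ∈ tsupport (ψ a)
            · rw [indicator_of_mem hz']
              apply ENNReal.ofReal_le_ofReal
              rw [abs_mul, abs_of_nonneg (h01 a z).1]
              exact mul_le_of_le_one_left (abs_nonneg _) (h01 a z).2
            · rw [image_eq_zero_of_notMem_tsupport hz']
              simp
        _ = ∑ a, ∫⁻ z in K, (tsupport (ψ a)).indicator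
              (fun z => ENNReal.ofReal |G a j z - F z|) z :=
            lintegral_finsetSum' _ fun a _ => mi a _ (m0 a j)
        _ ≤ _ := Finset.sum_le_sum fun a _ => lint_le (hmeas a) _
    have hlim : Tendsto (fun j => ∑ a, ∫⁻ z in tsupport (ψ a), ENNReal.ofReal |G a j z - F z|)
        atTop (𝓝 (∑ _a : κ, 0)) := tendsto_finsetSum _ fun a _ => hG0 a
    rw [Finset.sum_const_zero] at hlim
    exact tendsto_of_tendsto_of_tendsto_of_le_of_le tendsto_const_nhds hlim (fun j => bot_le) hle
  · have hle : ∀ j, ∫⁻ z in K,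
        ENNReal.ofReal ‖fderiv ℝ (fun z => ∑ a, ψ a z * G a j z) z - β z‖ ≤
        ∑ a, ((∫⁻ z in tsupport (ψ a), ENNReal.ofReal ‖fderiv ℝ (G a j) z - β z‖) +
          ENNReal.ofReal (M a) * ∫⁻ z in tsupport (ψ a), ENNReal.ofReal |G a j z - F z|) := by
      intro j
      calc ∫⁻ z in K, ENNReal.ofReal ‖fderiv ℝ (fun z => ∑ a, ψ a z * G a j z) z - β z‖
          ≤ ∫⁻ z in K, ∑ a, ((tsupport (ψ a)).indicator
              (fun z => ENNReal.ofReal ‖fderiv ℝ (G a j) z - β z‖) z +
              ENNReal.ofReal (M a) * (tsupport (ψ a)).indicator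
                (fun z => ENNReal.ofReal |G a j z - F z|) z) := by
            apply setLIntegral_mono' hK.measurableSet
            intro z hz
            have hs0 : ∑ a, fderiv ℝ (ψ a) z = 0 := by
              have hs : (fun z => ∑ a, ψ a z) =ᶠ[𝓝 z] fun _ => 1 := by
                filter_upwards [hW.mem_nhds (hKW hz)] with x hx
                exact hW1 x hx
              have h5 := hs.fderiv_eq (𝕜 := ℝ)
              rw [fderiv_fun_sum fun a _ => ((h1 a).differentiable (by simp)).differentiableAt] at h5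
              rw [h5]
              simp
            have e : fderiv ℝ (fun z => ∑ a, ψ a z * G a j z) z - β z
                = ∑ a, (ψ a z • (fderiv ℝ (G a j) z - β z)
                  + (G a j z - F z) • fderiv ℝ (ψ a) z) := by
              rw [fderiv_fun_sum fun a _ =>
                (((h1 a).mul (hG a j)).differentiable (by simp)).differentiableAt]
              have h6 : ∀ a, fderiv ℝ (fun z => ψ a z * G a j z) z
                  = ψ a z • fderiv ℝ (G a j) z + G a j z • fderiv ℝ (ψ a) z := fun a =>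
                fderiv_fun_mul ((h1 a).differentiable (by simp)).differentiableAt
                  ((hG a j).differentiable (by simp)).differentiableAt
              have h7 : ∀ a, (G a j z - F z) • fderiv ℝ (ψ a) z
                  = G a j z • fderiv ℝ (ψ a) z - F z • fderiv ℝ (ψ a) z := by
                intro a
                ext v
                simp only [_root_.smul_apply, _root_.sub_apply, smul_eq_mul]
                ring
              simp only [h6, h7, smul_sub]
              rw [Finset.sum_add_distrib, Finset.sum_add_distrib, Finset.sum_sub_distrib,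
                Finset.sum_sub_distrib, ← Finset.sum_smul, ← Finset.smul_sum, hs0,
                hW1 z (hKW hz), one_smul, smul_zero]
              abel
            rw [e]
            refine (ENNReal.ofReal_le_ofReal (norm_sum_le _ _)).trans ?_
            rw [ENNReal.ofReal_sum_of_nonneg (fun a _ => norm_nonneg _)]
            apply Finset.sum_le_sum
            intro a _
            by_cases hz' : z ∈ tsupport (ψ a)
            · rw [indicator_of_mem hz', indicator_of_mem hz', ← ENNReal.ofReal_mul (hM0 a),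
                ← ENNReal.ofReal_add (norm_nonneg _) (mul_nonneg (hM0 a) (abs_nonneg _))]
              apply ENNReal.ofReal_le_ofReal
              refine (norm_add_le _ _).trans (add_le_add ?_ ?_)
              · rw [norm_smul, Real.norm_eq_abs, abs_of_nonneg (h01 a z).1]
                exact mul_le_of_le_one_left (norm_nonneg _) (h01 a z).2
              · rw [norm_smul, Real.norm_eq_abs, mul_comm]
                exact mul_le_mul_of_nonneg_right (hM a z) (abs_nonneg _)
            · rw [image_eq_zero_of_notMem_tsupport hz', fderiv_tsupport hz']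
              simp
        _ = ∑ a, ((∫⁻ z in K, (tsupport (ψ a)).indicator
              (fun z => ENNReal.ofReal ‖fderiv ℝ (G a j) z - β z‖) z) +
              ENNReal.ofReal (M a) * ∫⁻ z in K, (tsupport (ψ a)).indicator
                (fun z => ENNReal.ofReal |G a j z - F z|) z) := by
            have h8 : ∀ a, AEMeasurable (fun z => (tsupport (ψ a)).indicator
              (fun z => ENNReal.ofReal ‖fderiv ℝ (G a j) z - β z‖) z +
              ENNReal.ofReal (M a) * (tsupport (ψ a)).indicator
                (fun z => ENNReal.ofReal |G a j z - F z|) z) (volume.restrict K) := fun a =>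
              (mi a _ (m1 a j)).add ((mi a _ (m0 a j)).const_mul _)
            rw [lintegral_finsetSum' _ fun a _ => h8 a]
            apply Finset.sum_congr rfl
            intro a _
            rw [lintegral_add_left' (mi a _ (m1 a j)), lintegral_const_mul' _ _
              ENNReal.ofReal_ne_top]
        _ ≤ _ := Finset.sum_le_sum fun a _ => add_le_add (lint_le (hmeas a) _)
            (mul_le_mul_right (lint_le (hmeas a) _) _)
    have hlim : Tendsto (fun j => ∑ a,
        ((∫⁻ z in tsupport (ψ a), ENNReal.ofReal ‖fderiv ℝ (G a j) z - β z‖) +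
          ENNReal.ofReal (M a) * ∫⁻ z in tsupport (ψ a), ENNReal.ofReal |G a j z - F z|))
        atTop (𝓝 (∑ a : κ, (0 + ENNReal.ofReal (M a) * 0))) :=
      tendsto_finsetSum _ fun a _ => (hG1 a).add
        (ENNReal.Tendsto.const_mul (hG0 a) (Or.inr ENNReal.ofReal_ne_top))
    simp only [mul_zero, add_zero, Finset.sum_const_zero] at hlim
    exact tendsto_of_tendsto_of_tendsto_of_le_of_le tendsto_const_nhds hlim (fun j => bot_le) hle


/-! ## almost everywhere constant functions -/

/-- two constants which are values of the same function almost everywhere on open sets with a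
common point agree -/
theorem const_unique {H : V n → ℝ} {U : Set (V n)} {c c' : ℝ} (hU : IsOpen U) (hne : U.Nonempty)
    (h : ∀ᵐ x ∂(volume.restrict U), H x = c) (h' : ∀ᵐ x ∂(volume.restrict U), H x = c') :
    c = c' := by
  have hpos : volume U ≠ 0 := (hU.measure_pos volume hne).ne'
  have hne' : NeBot (ae (volume.restrict U)) := by
    rw [ae_neBot]
    intro h0
    exact hpos (Measure.restrict_eq_zero.1 h0)
  obtain ⟨x, h1, h2⟩ := (h.and h').exists
  rw [← h1, ← h2]

theorem ae_const {H : V n → ℝ} {U : Set (V n)} (hU : IsOpen U) (hc : IsPreconnected U)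
    (h : ∀ z ∈ U, ∃ r : ℝ, 0 < r ∧ Metric.ball z r ⊆ U ∧
      ∃ c : ℝ, ∀ᵐ x ∂(volume.restrict (Metric.ball z r)), H x = c) :
    ∃ c : ℝ, ∀ᵐ x ∂(volume.restrict U), H x = c := by
  rcases U.eq_empty_or_nonempty with h0 | ⟨z0, hz0⟩
  · exact ⟨0, by simp [h0]⟩
  have h' : ∀ z, ∃ r c : ℝ, z ∈ U → (0 < r ∧ Metric.ball z r ⊆ U ∧
      ∀ᵐ x ∂(volume.restrict (Metric.ball z r)), H x = c) := by
    intro z
    by_cases hz : z ∈ U
    · obtain ⟨r, hr, hb, c, hc⟩ := h z hz
      exact ⟨r, c, fun _ => ⟨hr, hb, hc⟩⟩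
    · exact ⟨0, 0, fun h => absurd h hz⟩
  choose r c hrc using h'
  have hloc : ∀ z ∈ U, ∀ᶠ y in 𝓝 z, c y = c z := by
    intro z hz
    obtain ⟨hr, hb, hcz⟩ := hrc z hz
    filter_upwards [Metric.ball_mem_nhds z hr] with y hy
    have hyU : y ∈ U := hb hy
    obtain ⟨hr', hb', hcy⟩ := hrc y hyU
    apply const_unique (H := H) (U := Metric.ball y (r y) ∩ Metric.ball z (r z))
      (Metric.isOpen_ball.inter Metric.isOpen_ball) ⟨y, Metric.mem_ball_self hr', hy⟩
    · exact ae_restrict_of_ae_restrict_of_subset inter_subset_left hcy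
    · exact ae_restrict_of_ae_restrict_of_subset inter_subset_right hcz
  have hcon : ∀ z ∈ U, c z = c z0 := by
    intro z hz
    by_contra hne
    -- the set where `c = c z0`
    have hA : IsOpen (U ∩ c ⁻¹' {c z0}) := by
      rw [isOpen_iff_mem_nhds]
      rintro y ⟨hy, hy'⟩
      have hy'' : c y = c z0 := hy'
      filter_upwards [hU.mem_nhds hy, hloc y hy] with x hx hx'
      exact ⟨hx, by rw [mem_preimage, hx', hy'']; rfl⟩
    have hB : IsOpen (U ∩ (c ⁻¹' {c z0})ᶜ) := by
      rw [isOpen_iff_mem_nhds]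
      rintro y ⟨hy, hy'⟩
      have hy'' : c y ≠ c z0 := hy'
      filter_upwards [hU.mem_nhds hy, hloc y hy] with x hx hx'
      refine ⟨hx, ?_⟩
      intro hx''
      apply hy''
      rw [← hx']
      exact hx''
    obtain ⟨y, -, hy1, hy2⟩ := hc _ _ hA hB
      (fun y hy => by
        by_cases h : c y = c z0
        · exact Or.inl ⟨hy, h⟩
        · exact Or.inr ⟨hy, h⟩) ⟨z0, hz0, hz0, rfl⟩ ⟨z, hz, hz, hne⟩
    exact hy2.2 hy1.2
  refine ⟨c z0, ?_⟩
  rw [ae_restrict_iff' hU.measurableSet, ae_iff]
  apply measure_null_of_locally_null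
  intro z hz
  have hzU : z ∈ U := by
    by_contra h
    exact hz (fun h' => absurd h' h)
  obtain ⟨hr, hb, hcz⟩ := hrc z hzU
  rw [ae_restrict_iff' Metric.isOpen_ball.measurableSet, ae_iff] at hcz
  refine ⟨{a | ¬(a ∈ U → H a = c z0)} ∩ Metric.ball z (r z), ?_, ?_⟩
  · exact inter_mem_nhdsWithin _ (Metric.ball_mem_nhds z hr)
  · apply measure_mono_null _ hcz
    rintro y ⟨hy2, hy1⟩
    intro hy3
    apply hy2
    intro hy4
    rw [hy3 hy1, hcon z hzU]


/-! ## half balls -/

/-- the real linear forms `± Re z_i`, `± Im z_i` -/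
noncomputable def lf (a : Fin n × Bool × Bool) (z : V n) : ℝ :=
  (if a.2.2 then 1 else -1) * (if a.2.1 then (z a.1).re else (z a.1).im)

def hb (a : Fin n × Bool × Bool) : Set (V n) := {z | nsq z < 1 ∧ 0 < lf a z}

def opp (a : Fin n × Bool × Bool) : Fin n × Bool × Bool := (a.1, a.2.1, !a.2.2)

noncomputable def ev (a : Fin n × Bool × Bool) : V n :=
  Pi.single a.1 ((if a.2.2 then 1 else -1) * (if a.2.1 then 1 else Complex.I))

theorem lf_add (a : Fin n × Bool × Bool) (x y : V n) : lf a (x + y) = lf a x + lf a y := by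
  obtain ⟨i, b, s⟩ := a
  cases b <;> cases s <;> simp [lf] <;> ring

theorem lf_smul (a : Fin n × Bool × Bool) (t : ℝ) (x : V n) : lf a (t • x) = t * lf a x := by
  obtain ⟨i, b, s⟩ := a
  cases b <;> cases s <;> simp [lf]

theorem lf_cont (a : Fin n × Bool × Bool) : Continuous (lf a) := by
  unfold lf
  apply Continuous.mul continuous_const
  split_ifs
  · exact Complex.continuous_re.comp (continuous_apply _)
  · exact Complex.continuous_im.comp (continuous_apply _)

theorem nsq_cont : Continuous (nsq : V n → ℝ) := by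
  unfold nsq
  fun_prop

theorem nsq_nonneg (z : V n) : 0 ≤ nsq z := Finset.sum_nonneg fun _ _ => sq_nonneg _

theorem nsq_smul (t : ℝ) (z : V n) : nsq (t • z) = t ^ 2 * nsq z := by
  unfold nsq
  rw [Finset.mul_sum]
  apply Finset.sum_congr rfl
  intro i _
  rw [Pi.smul_apply, norm_smul, mul_pow, Real.norm_eq_abs, sq_abs]

theorem nsq_conv (x y : V n) {a b : ℝ} (ha : 0 ≤ a) (hb : 0 ≤ b) (hab : a + b = 1) :
    nsq (a • x + b • y) ≤ a * nsq x + b * nsq y := by
  unfold nsq
  rw [Finset.mul_sum, Finset.mul_sum, ← Finset.sum_add_distrib]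
  apply Finset.sum_le_sum
  intro i _
  have h1 : ‖(a • x + b • y) i‖ ≤ a * ‖x i‖ + b * ‖y i‖ := by
    rw [Pi.add_apply, Pi.smul_apply, Pi.smul_apply]
    refine (norm_add_le _ _).trans ?_
    rw [norm_smul, norm_smul, Real.norm_eq_abs, Real.norm_eq_abs, abs_of_nonneg ha,
      abs_of_nonneg hb]
  calc ‖(a • x + b • y) i‖ ^ 2 ≤ (a * ‖x i‖ + b * ‖y i‖) ^ 2 :=
        pow_le_pow_left₀ (norm_nonneg _) h1 2
    _ ≤ a * ‖x i‖ ^ 2 + b * ‖y i‖ ^ 2 := by
        have e : a * ‖x i‖ ^ 2 + b * ‖y i‖ ^ 2 - (a * ‖x i‖ + b * ‖y i‖) ^ 2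
            = a * b * (‖x i‖ - ‖y i‖) ^ 2 := by
          have : b = 1 - a := by linarith
          subst this
          ring
        nlinarith [mul_nonneg (mul_nonneg ha hb) (sq_nonneg (‖x i‖ - ‖y i‖))]

theorem hb_open (a : Fin n × Bool × Bool) : IsOpen (hb a) :=
  (isOpen_lt nsq_cont continuous_const).inter (isOpen_lt continuous_const (lf_cont a))

theorem hb_convex (a : Fin n × Bool × Bool) : Convex ℝ (hb a) := by
  intro x hx y hy s t hs ht hst
  refine ⟨?_, ?_⟩
  · refine (nsq_conv x y hs ht hst).trans_lt ?_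
    have h1 : s * nsq x + t * nsq y ≤ max (nsq x) (nsq y) := by
      calc s * nsq x + t * nsq y ≤ s * max (nsq x) (nsq y) + t * max (nsq x) (nsq y) :=
            add_le_add (mul_le_mul_of_nonneg_left (le_max_left _ _) hs)
              (mul_le_mul_of_nonneg_left (le_max_right _ _) ht)
        _ = max (nsq x) (nsq y) := by rw [← add_mul, hst, one_mul]
    exact h1.trans_lt (max_lt hx.1 hy.1)
  · rw [lf_add, lf_smul, lf_smul]
    rcases hs.eq_or_lt with h | h
    · subst h
      have : t = 1 := by linarith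
      subst this
      have := hy.2
      linarith
    · have h1 := mul_pos h hx.2
      have h2 := mul_nonneg ht hy.2.le
      linarith

theorem hb_sub (a : Fin n × Bool × Bool) : hb a ⊆ Dp n := by
  rintro z ⟨h1, h2⟩
  refine ⟨?_, h1⟩
  rcases (nsq_nonneg z).eq_or_lt with h | h
  · exfalso
    have h3 : ∀ i, z i = 0 := by
      intro i
      have := (Finset.sum_eq_zero_iff_of_nonneg (s := Finset.univ)
        (f := fun i => ‖z i‖ ^ 2) (fun _ _ => sq_nonneg _)).1 h.symm i (Finset.mem_univ _)
      simpa using this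
    simp [lf, h3] at h2
  · exact h

theorem Dp_sub : Dp n ⊆ ⋃ a : Fin n × Bool × Bool, hb a := by
  rintro z ⟨h1, h2⟩
  have h3 : ∃ i, z i ≠ 0 := by
    by_contra hcon
    push Not at hcon
    have : nsq z = 0 := by simp [nsq, hcon]
    linarith
  obtain ⟨i, hi⟩ := h3
  have h4 : (z i).re ≠ 0 ∨ (z i).im ≠ 0 := by
    by_contra hcon
    push Not at hcon
    exact hi (Complex.ext hcon.1 hcon.2)
  rw [mem_iUnion]
  rcases h4 with h | h
  · rcases lt_or_gt_of_ne h with h | h
    · exact ⟨(i, true, false), h2, by simp [lf, h]⟩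
    · exact ⟨(i, true, true), h2, by simp [lf, h]⟩
  · rcases lt_or_gt_of_ne h with h | h
    · exact ⟨(i, false, false), h2, by simp [lf, h]⟩
    · exact ⟨(i, false, true), h2, by simp [lf, h]⟩

theorem lf_ev_self (a : Fin n × Bool × Bool) : lf a (ev a) = 1 := by
  obtain ⟨i, b, s⟩ := a
  cases b <;> cases s <;> simp [lf, ev]

theorem lf_ev (a b : Fin n × Bool × Bool) (h : b ≠ opp a) : 0 ≤ lf b (ev a) := by
  obtain ⟨i, p, s⟩ := a
  obtain ⟨i', p', s'⟩ := b
  by_cases hi : i' = i
  · subst hi
    cases p <;> cases s <;> cases p' <;> cases s' <;> simp_all [lf, ev, opp]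
  · cases p' <;> cases s' <;> simp [lf, ev, hi]

theorem opp_opp (a : Fin n × Bool × Bool) : opp (opp a) = a := by
  simp [opp]

theorem ne_opp_symm {a b : Fin n × Bool × Bool} (h : b ≠ opp a) : a ≠ opp b := by
  intro h'
  apply h
  rw [h', opp_opp]

theorem self_ne_opp (a : Fin n × Bool × Bool) : a ≠ opp a := by
  obtain ⟨i, b, s⟩ := a
  cases s <;> simp [opp]

theorem hb_opp (a : Fin n × Bool × Bool) : hb a ∩ hb (opp a) = ∅ := by
  ext z
  simp only [mem_inter_iff, mem_empty_iff_false, iff_false]
  rintro ⟨⟨-, h1⟩, -, h2⟩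
  obtain ⟨i, b, s⟩ := a
  cases b <;> cases s <;> simp [lf, opp] at h1 h2 <;> linarith

theorem hb_nonempty (a b d : Fin n × Bool × Bool) (h1 : b ≠ opp a) (h2 : d ≠ opp b)
    (h3 : d ≠ opp a) : (hb a ∩ hb b ∩ hb d).Nonempty := by
  set w : V n := ev a + ev b + ev d with hw
  set t : ℝ := 1 / (1 + nsq w) with ht
  have hw0 := nsq_nonneg w
  have ht0 : 0 < t := by positivity
  have hn : nsq (t • w) < 1 := by
    rw [nsq_smul, ht, div_pow, one_pow, div_mul_eq_mul_div, one_mul, div_lt_one (by positivity)]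
    nlinarith
  refine ⟨t • w, ⟨⟨hn, ?_⟩, hn, ?_⟩, hn, ?_⟩
  · rw [lf_smul, hw, lf_add, lf_add, lf_ev_self]
    have e1 := lf_ev b a (ne_opp_symm h1)
    have e2 := lf_ev d a (ne_opp_symm h3)
    exact mul_pos ht0 (by linarith)
  · rw [lf_smul, hw, lf_add, lf_add, lf_ev_self]
    have e1 := lf_ev a b h1
    have e2 := lf_ev d b (ne_opp_symm h2)
    exact mul_pos ht0 (by linarith)
  · rw [lf_smul, hw, lf_add, lf_add, lf_ev_self]
    have e1 := lf_ev a d h3
    have e2 := lf_ev b d h2
    exact mul_pos ht0 (by linarith)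

/-- cocycles are coboundaries -/
theorem coboundary (hn : 2 ≤ n) (c : Fin n × Bool × Bool → Fin n × Bool × Bool → ℝ)
    (hc : ∀ a b d, b ≠ opp a → d ≠ opp b → d ≠ opp a → c a b + c b d = c a d) :
    ∃ d : Fin n × Bool × Bool → ℝ, ∀ a b, b ≠ opp a → c a b = d a - d b := by
  have h0 : ∀ a, c a a = 0 := by
    intro a
    have := hc a a a (self_ne_opp a) (self_ne_opp a) (self_ne_opp a)
    linarith
  have hs : ∀ a b, b ≠ opp a → c b a = - c a b := by
    intro a b h
    have := hc a b a h (ne_opp_symm h) (self_ne_opp a)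
    rw [h0] at this
    linarith
  set k0 : Fin n × Bool × Bool := (⟨0, by omega⟩, true, true) with hk0
  set k1 : Fin n × Bool × Bool := (⟨0, by omega⟩, false, true) with hk1
  set k2 : Fin n × Bool × Bool := (⟨1, by omega⟩, true, true) with hk2
  have n10 : k1 ≠ opp k0 := by simp [hk0, hk1, opp]
  have n10' : k1 ≠ k0 := by simp [hk0, hk1]
  have n1' : opp k1 ≠ k0 := by simp [hk0, hk1, opp]
  have n20 : k2 ≠ opp k0 := by simp [hk0, hk2, opp]
  have n20' : k2 ≠ k0 := by simp [hk0, hk2]
  have n21 : k2 ≠ opp k1 := by simp [hk1, hk2, opp]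
  have n21' : k2 ≠ k1 := by simp [hk1, hk2]
  have np1 : opp k1 ≠ opp k0 := by simp [hk0, hk1, opp]
  have np2 : k0 ≠ opp k2 := ne_opp_symm n20
  classical
  -- the case of `opp k0`
  have key : ∀ b, b ≠ k0 → b ≠ opp k0 →
      c (opp k0) b = c (opp k0) k1 + c k1 k0 - c b k0 := by
    intro b hb0 hb1
    have m : ∀ x : Fin n × Bool × Bool, x ≠ k0 → x ≠ opp (opp k0) := by
      intro x hx
      rwa [opp_opp]
    have e0 : c k0 b = - c b k0 := by
      have := hs b k0 (ne_opp_symm hb1)
      linarith
    by_cases hb2 : b = opp k1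
    · have nb2 : b ≠ opp k2 := by
        rw [hb2]
        simp [hk1, hk2, opp]
      have a1 := hc (opp k0) k2 b (m _ n20') nb2 (m _ hb0)
      have a2 := hc (opp k0) k1 k2 (m _ n10') n21 (m _ n20')
      have a3 := hc k1 k0 k2 (ne_opp_symm n10) n20 n21
      have a4 := hc k2 k0 b (ne_opp_symm n20) hb1 nb2
      have a5 := hs k0 k2 n20
      linarith
    · have a1 := hc (opp k0) k1 b (m _ n10') hb2 (m _ hb0)
      have a2 := hc k1 k0 b (ne_opp_symm n10) hb1 hb2
      linarith
  refine ⟨fun a => if a = opp k0 then c (opp k0) k1 + c k1 k0 else c a k0, ?_⟩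
  intro a b hab
  by_cases ha : a = opp k0
  · by_cases hb' : b = opp k0
    · rw [ha, hb', h0]
      simp
    · have hb0 : b ≠ k0 := by
        rw [ha, opp_opp] at hab
        exact hab
      simp only [ha, hb', if_true, if_false]
      exact key b hb0 hb'
  · by_cases hb' : b = opp k0
    · have ha0 : a ≠ k0 := by
        intro h
        rw [h] at hab
        exact hab hb'
      simp only [ha, hb', if_true, if_false]
      have e1 := key a ha0 ha
      have e2 := hs a (opp k0) (by rw [← hb']; exact hab)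
      linarith
    · simp only [ha, hb', if_false]
      have e1 := hc a b k0 hab (ne_opp_symm hb') (ne_opp_symm ha)
      linarith


theorem locInt_mono {E : Type*} [NormedAddCommGroup E] {F : V n → E} {U U' : Set (V n)}
    (h : U' ⊆ U) (hF : LocallyIntegrableOn F U) : LocallyIntegrableOn F U' := hF.mono_set h

theorem glu (hPOI : T_POI) : T_GLU := by
  intro n β hn hβ hW
  have h1 : ∀ a : Fin n × Bool × Bool, ∃ F : V n → ℝ, LocallyIntegrableOn F (hb a) ∧
      WGr (hb a) F β := by
    intro a
    apply hPOI n (hb a) β (hb_open a) (hb_convex a)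
    · obtain ⟨z, hz⟩ := hb_nonempty a a a (self_ne_opp a) (self_ne_opp a) (self_ne_opp a)
      exact ⟨z, hz.2⟩
    · exact hβ.mono_set (hb_sub a)
    · exact wcl_mono (hb_sub a) hW
  choose F hF hG using h1
  have h2 : ∀ a b, ∃ c : ℝ, ∀ᵐ x ∂(volume.restrict (hb a ∩ hb b)), F a x - F b x = c := by
    intro a b
    apply ae_const (H := fun x => F a x - F b x) ((hb_open a).inter (hb_open b))
      ((hb_convex a).inter (hb_convex b)).isPreconnected
    exact wg0 n (hb a ∩ hb b) (F a) (F b) β ((hb_open a).inter (hb_open b))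
      ((hF a).mono_set inter_subset_left) ((hF b).mono_set inter_subset_right)
      (hβ.mono_set (inter_subset_left.trans (hb_sub a)))
      (wgr_mono inter_subset_left (hG a)) (wgr_mono inter_subset_right (hG b))
  choose c hc using h2
  obtain ⟨d, hd⟩ := coboundary hn c (by
    intro a b e h1 h2 h3
    have hne := hb_nonempty a b e h1 h2 h3
    have hop : IsOpen (hb a ∩ hb b ∩ hb e) := ((hb_open a).inter (hb_open b)).inter (hb_open e)
    apply const_unique (H := fun x => F a x - F e x) hop hne
    · filter_upwards [ae_restrict_of_ae_restrict_of_subset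
        (fun x hx => ⟨hx.1.1, hx.1.2⟩ : hb a ∩ hb b ∩ hb e ⊆ hb a ∩ hb b) (hc a b),
        ae_restrict_of_ae_restrict_of_subset
        (fun x hx => ⟨hx.1.2, hx.2⟩ : hb a ∩ hb b ∩ hb e ⊆ hb b ∩ hb e) (hc b e)] with x h4 h5
      linarith
    · exact ae_restrict_of_ae_restrict_of_subset
        (fun x hx => ⟨hx.1.1, hx.2⟩ : hb a ∩ hb b ∩ hb e ⊆ hb a ∩ hb e) (hc a e))
  have h3 : ∀ a b, ∀ᵐ x ∂(volume.restrict (hb b)), x ∈ hb a → F a x - d a = F b x - d b := by
    intro a b
    rw [← ae_restrict_iff' (hb_open a).measurableSet,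
      Measure.restrict_restrict (hb_open a).measurableSet]
    by_cases h : b = opp a
    · rw [h, hb_opp]
      simp
    · filter_upwards [hc a b] with x hx
      have := hd a b h
      linarith
  classical
  set G : V n → ℝ := fun z => if h : ∃ a, z ∈ hb a then F h.choose z - d h.choose else 0 with hGdef
  have h4 : ∀ b, ∀ᵐ x ∂(volume.restrict (hb b)), G x = F b x - d b := by
    intro b
    filter_upwards [ae_all_iff.2 (fun a => h3 a b), ae_restrict_mem (hb_open b).measurableSet]
      with x hx hxb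
    have h : ∃ a, x ∈ hb a := ⟨b, hxb⟩
    rw [hGdef]
    simp only [h, dif_pos]
    exact hx _ h.choose_spec
  have h5 : ∀ b, LocallyIntegrableOn G (hb b) := by
    intro b
    rw [locallyIntegrableOn_iff (hb_open b).isLocallyClosed]
    intro K hKb hK
    have h6 : IntegrableOn (fun x => F b x - d b) K :=
      ((hF b).integrableOn_compact_subset hKb hK).sub (integrableOn_const hK.measure_lt_top.ne)
    apply h6.congr
    filter_upwards [ae_restrict_of_ae_restrict_of_subset hKb (h4 b)] with x hx
    exact hx.symm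
  refine ⟨G, ?_, ?_⟩
  · intro x hx
    obtain ⟨b, hb'⟩ := mem_iUnion.1 (Dp_sub hx)
    have := h5 b x hb'
    rw [(hb_open b).nhdsWithin_eq hb'] at this
    exact this.filter_mono nhdsWithin_le_nhds
  · apply wgr_glue hb_open Dp_sub h5 (fun a => hβ.mono_set (hb_sub a))
    intro b
    exact wgr_congr (h4 b) (wgr_sub_const (d b) (hG b))

end Pool.Agent.H67.VG
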