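import Pool.Agent.H67.VG.BTW
import Pool.Agent.H67.VG.GLU

/-!
# VG: existence of the primitive (module ETE)
-/

open MeasureTheory Set Filter Topology
open scoped ENNReal NNReal ContDiff Manifold

namespace Pool.Agent.H67.VG

open Pool.Agent.H95.VG

variable {n : ℕ}

theorem wgr_congr_beta {Q : Set (V n)} {F : V n → ℝ} {β β' : V n → V n →L[ℝ] ℝ}
    (h : ∀ z ∈ Q, β z = β' z) (hW : WGr Q F β') : WGr Q F β := by
  intro K hKQ hK
  obtain ⟨G, hG, h0, h1⟩ := hW K hKQ hK
  refine ⟨G, hG, h0, ?_⟩
  refine h1.congr fun j => ?_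
  apply setLIntegral_congr_fun hK.measurableSet
  intro z hz
  simp only
  rw [h z (hKQ hz)]

theorem ete (hSMO : T_SMO) (hOAO : T_OAO) (hGLU : T_GLU) (hBTW : T_BTW) : T_ETE := by
  intro n X _ _ _ ι _ A f I h hS hC
  obtain ⟨hL, hW, hbt⟩ := hBTW n X ι A f I h hS hC
  obtain ⟨F, hF, hG⟩ := hGLU n (bt A f h) hS.two hL hW
  set g : ι → V n → ℝ := fun a x => h a (FF A f a x) with hg
  have hO : ∀ a, IsOpen (Oa A f I a) := fun a => (hOAO n X ι A f I hS a).1
  have hgs : ∀ a, ContDiffOn ℝ ∞ (g a) (Oa A f I a) := fun a =>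
    smooth_comp hSMO hC a (hO a) (hOAO n X ι A f I hS a).2.1
  have hgc : ∀ a, ContinuousOn (g a) (Oa A f I a) := fun a => (hgs a).continuousOn
  have hOD : ∀ a, Oa A f I a ⊆ Dp n := fun a z hz => hz.1.1
  -- local constants
  have hloc : ∀ a, ∀ z ∈ Oa A f I a, ∃ r : ℝ, 0 < r ∧ Metric.ball z r ⊆ Oa A f I a ∧
      ∃ c : ℝ, ∀ᵐ x ∂(volume.restrict (Metric.ball z r)), F x - g a x = c := by
    intro a
    apply wg0 n (Oa A f I a) F (g a) (bt A f h) (hO a) (hF.mono_set (hOD a))
    · exact (hgc a).locallyIntegrableOn (hO a).measurableSet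
    · exact hL.mono_set (hOD a)
    · exact wgr_mono (hOD a) hG
    · exact wgr_congr_beta (fun z hz => hbt a z hz) (wgr_smooth (hO a) (hgs a))
  -- uniqueness
  have huniq : ∀ z a a' r r' c c', 0 < r → 0 < r' → Metric.ball z r ⊆ Oa A f I a →
      Metric.ball z r' ⊆ Oa A f I a' →
      (∀ᵐ x ∂(volume.restrict (Metric.ball z r)), F x - g a x = c) →
      (∀ᵐ x ∂(volume.restrict (Metric.ball z r')), F x - g a' x = c') →
      g a z + c = g a' z + c' := by
    intro z a a' r r' c c' hr hr' hb hb' hc hc'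
    have hsub : Metric.ball z (min r r') ⊆ Metric.ball z r :=
      Metric.ball_subset_ball (min_le_left _ _)
    have hsub' : Metric.ball z (min r r') ⊆ Metric.ball z r' :=
      Metric.ball_subset_ball (min_le_right _ _)
    have hae : (fun x => g a x + c) =ᵐ[volume.restrict (Metric.ball z (min r r'))]
        fun x => g a' x + c' := by
      filter_upwards [ae_restrict_of_ae_restrict_of_subset hsub hc,
        ae_restrict_of_ae_restrict_of_subset hsub' hc'] with x h1 h2
      linarith
    have := Measure.eqOn_open_of_ae_eq hae Metric.isOpen_ball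
      ((((hgc a).mono hb).mono hsub).add continuousOn_const)
      ((((hgc a').mono hb').mono hsub').add continuousOn_const)
    exact this (Metric.mem_ball_self (lt_min hr hr'))
  have hex : ∀ z ∈ Dp n \ I, ∃ (a : ι) (r c : ℝ), 0 < r ∧ Metric.ball z r ⊆ Oa A f I a ∧
      ∀ᵐ x ∂(volume.restrict (Metric.ball z r)), F x - g a x = c := by
    intro z hz
    obtain ⟨r, hr, hb, c, hc⟩ := hloc _ z (mem_Oa_ch A f I hz).1
    exact ⟨_, r, c, hr, hb, hc⟩
  classical
  set η : V n → ℝ := fun z => if hz : z ∈ Dp n \ I then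
    g (hex z hz).choose z + (hex z hz).choose_spec.choose_spec.choose else 0 with hη
  have hval : ∀ z a r c, 0 < r → Metric.ball z r ⊆ Oa A f I a →
      (∀ᵐ x ∂(volume.restrict (Metric.ball z r)), F x - g a x = c) → η z = g a z + c := by
    intro z a r c hr hb hc
    have hz : z ∈ Dp n \ I := (hb (Metric.mem_ball_self hr)).1
    rw [hη]
    simp only [hz, dif_pos]
    have hs := (hex z hz).choose_spec.choose_spec.choose_spec
    exact huniq z _ a _ r _ c hs.1 hr hs.2.1 hb hs.2.2 hc
  have hnear : ∀ z a r c, 0 < r → Metric.ball z r ⊆ Oa A f I a →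
      (∀ᵐ x ∂(volume.restrict (Metric.ball z r)), F x - g a x = c) →
      ∀ᶠ z' in 𝓝 z, η z' = g a z' + c := by
    intro z a r c hr hb hc
    filter_upwards [Metric.ball_mem_nhds z hr] with z' hz'
    have hsub : Metric.ball z' (r - dist z' z) ⊆ Metric.ball z r :=
      Metric.ball_subset_ball' (by linarith)
    exact hval z' a (r - dist z' z) c (by rw [Metric.mem_ball] at hz'; linarith)
      (hsub.trans hb) (ae_restrict_of_ae_restrict_of_subset hsub hc)
  refine ⟨η, ?_, ?_⟩
  · intro z hz
    obtain ⟨a, r, c, hr, hb, hc⟩ := hex z hz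
    apply ContinuousAt.continuousWithinAt
    have h1 : ContinuousAt (fun x => g a x + c) z :=
      (((hgc a).continuousAt ((hO a).mem_nhds (hb (Metric.mem_ball_self hr))))).add
        continuousAt_const
    apply h1.congr
    filter_upwards [hnear z a r c hr hb hc] with x hx
    exact hx.symm
  · intro a z hz
    obtain ⟨r, hr, hb, c, hc⟩ := hloc a z hz
    have h1 := hval z a r c hr hb hc
    filter_upwards [hnear z a r c hr hb hc] with x hx
    change η x - g a x = η z - g a z
    rw [hx, h1]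
    ring

end Pool.Agent.H67.VG
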