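import Pool.Agent.H67.VG.WGS

/-!
# VG: partitions of unity near compact sets
-/

open MeasureTheory Set Filter Topology
open scoped ENNReal NNReal ContDiff Manifold

namespace Pool.Agent.H67.VG

open Pool.Agent.H95.VG

variable {n : ℕ}

theorem pou {ι : Type*} [Fintype ι] {K : Set (V n)} (hK : IsCompact K) (U : ι → Set (V n))
    (hU : ∀ i, IsOpen (U i)) (hKU : K ⊆ ⋃ i, U i) : ∃ ψ : ι → V n → ℝ,
      (∀ i, ContDiff ℝ ∞ (ψ i)) ∧ (∀ i, HasCompactSupport (ψ i)) ∧ (∀ i, tsupport (ψ i) ⊆ U i) ∧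
      (∀ i x, 0 ≤ ψ i x ∧ ψ i x ≤ 1) ∧ ∃ W, IsOpen W ∧ K ⊆ W ∧ ∀ x ∈ W, ∑ i, ψ i x = 1 := by
  obtain ⟨C, hC, hKC, hCU⟩ := exists_compact_between hK (isOpen_iUnion hU) hKU
  obtain ⟨f, hf⟩ := SmoothPartitionOfUnity.exists_isSubordinate 𝓘(ℝ, V n) hC.isClosed U hU hCU
  obtain ⟨p, hp, hpc, hps, ⟨W, hW, hKW, hW1⟩, hp01⟩ := cutoff hK isOpen_interior hKC
  refine ⟨fun i x => p x * f i x, ?_, ?_, ?_, ?_, W ∩ interior C, hW.inter isOpen_interior,
    subset_inter hKW hKC, ?_⟩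
  · intro i
    exact hp.mul (f i).contMDiff.contDiff
  · intro i
    exact hpc.mul_right
  · intro i
    exact (tsupport_mul_subset_right).trans (hf i)
  · intro i x
    exact ⟨mul_nonneg (hp01 x).1 (f.nonneg i x),
      mul_le_one₀ (hp01 x).2 (f.nonneg i x) (f.le_one i x)⟩
  · intro x hx
    have h1 := f.sum_eq_one (interior_subset hx.2)
    rw [finsum_eq_sum_of_fintype] at h1
    rw [← Finset.mul_sum, h1, hW1 x hx.1, mul_one]

end Pool.Agent.H67.VG
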