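import Pool.Agent.H95.VG.Targets4

/-!
# VG: restriction to a connected component (module SUB)
-/

open MeasureTheory Set Filter Topology
open scoped ENNReal NNReal ContDiff Manifold

namespace Pool.Agent.H67.VG

open Pool.Agent.H95.VG

variable {n : ℕ}

theorem sub : T_SUB := by
  intro n X _ _ _ ι _ A x₀
  classical
  set C : Set X := connectedComponent x₀ with hC
  -- images of the closed polydisc are connected
  have hpre : ∀ a, IsPreconnected ((A.φ a).symm '' Metric.closedBall (0 : V n) 3) := by
    intro a
    apply (convex_closedBall (0 : V n) 3).isPreconnected.image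
    exact (A.φ a).continuousOn_symm.mono (A.ball a)
  have hmem : ∀ a x, x ∈ (A.φ a).source → A.φ a x ∈ Metric.ball (0 : V n) 1 →
      x ∈ (A.φ a).symm '' Metric.closedBall (0 : V n) 3 := by
    intro a x hx hx1
    refine ⟨A.φ a x, ?_, (A.φ a).left_inv hx⟩
    rw [Metric.mem_ball] at hx1
    rw [Metric.mem_closedBall]
    linarith
  have hsubC : ∀ a x, x ∈ C → x ∈ (A.φ a).source → A.φ a x ∈ Metric.ball (0 : V n) 1 →
      (A.φ a).symm '' Metric.closedBall (0 : V n) 3 ⊆ C := by
    intro a x hxC hx hx1
    have h1 := (hpre a).subset_connectedComponent (hmem a x hx hx1)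
    rwa [← connectedComponent_eq hxC] at h1
  have hCo : IsOpen C := by
    rw [isOpen_iff_mem_nhds]
    intro x hx
    obtain ⟨a, ha, ha1⟩ := A.cover x
    have h1 : (A.φ a).symm '' Metric.ball (0 : V n) 3 ∈ 𝓝 x := by
      apply IsOpen.mem_nhds
      · exact (A.φ a).symm.isOpen_image_of_subset_source Metric.isOpen_ball
          (Metric.ball_subset_closedBall.trans (A.ball a))
      · refine ⟨A.φ a x, ?_, (A.φ a).left_inv ha⟩
        rw [Metric.mem_ball] at ha1 ⊢
        linarith
    apply mem_of_superset h1
    exact (image_mono Metric.ball_subset_closedBall).trans (hsubC a x hx ha ha1)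
  have hCc : IsCompact C := isClosed_connectedComponent.isCompact
  have hj : IsOpenEmbedding (Subtype.val : C → X) := hCo.isOpenEmbedding_subtypeVal
  have hne : Nonempty C := ⟨⟨x₀, mem_connectedComponent⟩⟩
  set E := IsOpenEmbedding.toOpenPartialHomeomorph (Subtype.val : C → X) hj with hE
  have hEt : E.target = C := by
    rw [hE, IsOpenEmbedding.toOpenPartialHomeomorph_target, Subtype.range_coe]
  have hEs : E.source = univ := IsOpenEmbedding.toOpenPartialHomeomorph_source _ hj
  have hEr : ∀ w ∈ C, ((E.symm w : C) : X) = w := by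
    intro w hw
    apply E.right_inv
    rw [hEt]
    exact hw
  let ι' := {a : ι // (A.φ a).symm '' Metric.closedBall (0 : V n) 3 ⊆ C}
  have hsrc : ∀ a : ι', (E.trans (A.φ a.1)).source = Subtype.val ⁻¹' (A.φ a.1).source := by
    intro a
    rw [OpenPartialHomeomorph.trans_source, hEs, univ_inter]
    rfl
  have hsymm : ∀ (a : ι') (y : V n), (A.φ a.1).symm y ∈ C →
      (((E.trans (A.φ a.1)).symm y : C) : X) = (A.φ a.1).symm y := fun a y hy => hEr _ hy
  refine ⟨C, inferInstance, inferInstance, isCompact_iff_compactSpace.1 hCc,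
    isConnected_iff_connectedSpace.1 isConnected_connectedComponent, ι', inferInstance,
    { φ := fun a => E.trans (A.φ a.1)
      hol := ?_
      ball := ?_
      cover := ?_ }, Subtype.val, Subtype.val, hj, Subtype.range_coe, ?_, ?_, ?_⟩
  · intro a b
    have h1 : ∀ y ∈ ((E.trans (A.φ a.1)).symm.trans (E.trans (A.φ b.1))).source,
        y ∈ ((A.φ a.1).symm.trans (A.φ b.1)).source ∧
          (((E.trans (A.φ a.1)).symm y : C) : X) = (A.φ a.1).symm y := by
      intro y hy
      rw [OpenPartialHomeomorph.trans_source] at hy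
      obtain ⟨hy1, hy2⟩ := hy
      rw [OpenPartialHomeomorph.symm_source, OpenPartialHomeomorph.trans_target] at hy1
      have hyC : (A.φ a.1).symm y ∈ C := by
        have := hy1.2
        rw [hEt] at this
        exact this
      have h2 := hsymm a y hyC
      refine ⟨?_, h2⟩
      rw [OpenPartialHomeomorph.trans_source]
      refine ⟨hy1.1, ?_⟩
      rw [mem_preimage, hsrc, mem_preimage, h2] at hy2
      exact hy2
    refine ((A.hol a.1 b.1).mono fun y hy => (h1 y hy).1).congr ?_
    intro y hy
    change A.φ b.1 (((E.trans (A.φ a.1)).symm y : C) : X) = _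
    rw [(h1 y hy).2]
  · intro a y hy
    rw [OpenPartialHomeomorph.trans_target]
    refine ⟨A.ball a.1 hy, ?_⟩
    rw [mem_preimage, hEt]
    exact a.2 (mem_image_of_mem _ hy)
  · intro x
    obtain ⟨a, ha, ha1⟩ := A.cover x.1
    refine ⟨⟨a, hsubC a x.1 x.2 ha ha1⟩, ?_, ha1⟩
    rw [hsrc]
    exact ha
  · intro a
    exact hsrc a
  · intro a x _
    rfl
  · intro a y hy
    exact hsymm a y (a.2 (mem_image_of_mem _ hy))

end Pool.Agent.H67.VG
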